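import Pool.Agent.Lib.MP_7f581e_K.Defs2

/-!
# C36 (MP_7f581e_nt): closure for realizations which need not be regular

`ψ : Gx p x →* G` is onto, `G₀` is the image of the geometric Galois group `Gx p x ⊓ geo p Ω` (so
`G ⧸ G₀` is the Galois group of the extension of the constants).
-/

set_option autoImplicit false

namespace MP7K

open MP7Z

/-- A realization of `G` over `𝔽_p(x)`, such that the geometric Galois group is mapped onto the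
subgroup `G₀` of `G`. -/
structure Rr (p : ℕ) [Fact p.Prime] {Ω : Type} [Field Ω] [Algebra (ZMod p) Ω] (x : Ω)
    {G : Type} [Group G] (ψ : Gx p x →* G) (G₀ : Subgroup G) : Prop where
  stage : IsStage p x
  fin : FinLevel ψ
  surj : Function.Surjective ψ
  mem : ∀ γ : Gx p x, (γ : Ω ≃ₐ[ZMod p] Ω) ∈ geo p Ω → ψ γ ∈ G₀
  reg : ∀ g ∈ G₀, ∃ γ : Gx p x, (γ : Ω ≃ₐ[ZMod p] Ω) ∈ geo p Ω ∧ ψ γ = g

/-- **(RD)** for such realizations: for every normal subgroup `N` of `G`, properly contained in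
`G₀`, such that `G₀ ⧸ N` is abelian, there is ramification outside `N` at a nonrational point. -/
structure RDr (p : ℕ) [Fact p.Prime] {Ω : Type} [Field Ω] [Algebra (ZMod p) Ω] (x : Ω)
    {G : Type} [Group G] (ψ : Gx p x →* G) (G₀ : Subgroup G) : Prop extends Rr p x ψ G₀ where
  ram : ∀ N : Subgroup G, N.Normal → N ≤ G₀ → N ≠ G₀ →
    (∀ g ∈ G₀, ∀ h ∈ G₀, g * h * g⁻¹ * h⁻¹ ∈ N) →
    ∃ c : Ω, c ^ p ≠ c ∧ RamAt p x ψ N (some c)

/-- **(II.0)+(II.1)**, relative version of `BaseW`. -/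
def BaseWr : Prop :=
  ∀ (p : ℕ) [Fact p.Prime] (Ω : Type) [Field Ω] [Algebra (ZMod p) Ω] (x : Ω), IsStage p x →
    ∀ w : List (Atom p), OkW w → ∃ y : Ω, ev w y = x ∧ IsStage p y ∧ ∃ hle : Gx p y ≤ Gx p x,
      ∀ (G : Type) [Group G] [Finite G] (ψ : Gx p x →* G) (G₀ : Subgroup G), RDr p x ψ G₀ →
        RDr p y (rs hle ψ) G₀

/-- **(II.2)**, relative version of `StartW`. -/
def StartWr : Prop :=
  ∀ (p : ℕ) [Fact p.Prime] (Ω : Type) [Field Ω] [Algebra (ZMod p) Ω] (x : Ω)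
    (G : Type) [Group G] [Finite G] (ψ : Gx p x →* G) (G₀ : Subgroup G), Rr p x ψ G₀ →
      ∃ y : Ω, ∃ hle : Gx p y ≤ Gx p x, RDr p y (rs hle ψ) G₀

/-- **(III.2)**, relative version of `WeakW`. -/
def WeakWr : Prop :=
  ∀ (p : ℕ) [Fact p.Prime] (Ω : Type) [Field Ω] [Algebra (ZMod p) Ω] (x : Ω) (G : Type) [Group G]
    [Finite G] (ψ : Gx p x →* G) (G₀ : Subgroup G), RDr p x ψ G₀ →
  ∀ (E : Type) [Group E] [Finite E] (f : E →* G), Function.Surjective f →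
  ∀ (ℓ : ℕ), ℓ.Prime → ℓ ≠ p → (∀ a ∈ f.ker, a ^ ℓ = 1) →
    (∀ a ∈ f.ker, ∀ b ∈ f.ker, a * b = b * a) →
  ∃ (y : Ω) (hle : Gx p y ≤ Gx p x), RDr p y (rs hle ψ) G₀ ∧
    ∃ ψ' : Gx p y →* E, FinLevel ψ' ∧
      ∀ (γ : Ω ≃ₐ[ZMod p] Ω) (h' : γ ∈ Gx p y) (h : γ ∈ Gx p x), f (ψ' ⟨γ, h'⟩) = ψ ⟨γ, h⟩

end MP7K
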