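import Pool.Agent.Lib.MP_7f581e_K.R.LieT
import Pool.Agent.Lib.MP_7f581e_K.V.Mono

/-!
# C36: the closure theorem over `k(X)`, from the modules
-/

set_option autoImplicit false

universe u

namespace MP7K

open MP7Z MP7fR MP7fC MP7fE

section

variable {p : ℕ} [Fact p.Prime]

/-- The lifting form, one minimal normal subgroup. -/
theorem liftW_step (hS : SolvHStmt) (hGA : GALiftStmt) (E : Type) [Group E] [Finite E]
    (N : Subgroup E) [N.Normal] (S : Type) [Group S] (k : ℕ)
    (h : IsFac p (fun S [Group S] => HasGA p S) S) (φ : N ≃* (Fin k → S)) :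
    LiftW p (QuotientGroup.mk' N) := by
  have hsolv : SolvL p := fun E G _ _ _ _ f hf hs => liftW_solv hS f hf hs
  have key : ∀ (𝒮 : (S : Type) → [Group S] → Prop), NStepL p 𝒮 → 𝒮 S →
      LiftW p (QuotientGroup.mk' N) := by
    intro 𝒮 h𝒮 hSc
    rcases Nat.eq_zero_or_pos k with hk | hk
    · subst hk
      have h1 : Subsingleton N := ⟨fun a b => φ.injective (Subsingleton.elim _ _)⟩
      have h2 : N = ⊥ := Subgroup.eq_bot_of_subsingleton N
      subst h2
      exact liftW_equiv (QuotientGroup.quotientBot (G := E)).symm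
    · have h1 : Finite (Fin k → S) := Finite.of_equiv N φ.toEquiv
      have h2 : Finite S := Finite.of_injective (fun s : S => fun _ : Fin k => s)
        fun a b h => congrFun h ⟨0, hk⟩
      exact h𝒮 (E ⧸ N) E (QuotientGroup.mk' N) (QuotientGroup.mk'_surjective N) S (Fin k) hSc
        ⟨(MulEquiv.subgroupCongr (QuotientGroup.ker_mk' N)).trans φ⟩
  rcases h with h | h | h | h | h | h
  · exact liftW_close hS E N S k (Or.inl h) φ
  · exact liftW_close hS E N S k (Or.inr h) φ
  · exact key _ (nStepL_classical hsolv) h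
  · exact key _ (nStepL_orthogonal hsolv) h
  · exact key _ (nStepL_lieType hsolv) h
  · refine key (fun S [Group S] => HasGA p S) ?_ h
    intro G _ _ E _ _ f hf S _ _ κ _ hga hθ
    exact hGA p (fun E G _ _ _ _ f hf hs => liftW_solv hS f hf hs) E G f hf S κ hga hθ

theorem isKernelFactor_isFac {S : Type} [Group S] (h : IsKernelFactor p S) :
    IsFac p (fun S [Group S] => HasGA p S) S := by
  rcases h with h | h | h | h | h | h
  · exact Or.inl h
  · exact Or.inr (Or.inl (Or.inl (Or.inr (Or.inl h))))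
  · exact Or.inr (Or.inr (Or.inl h))
  · exact Or.inr (Or.inr (Or.inr (Or.inl h)))
  · exact Or.inr (Or.inr (Or.inr (Or.inr (Or.inl h))))
  · exact Or.inr (Or.inr (Or.inr (Or.inr (Or.inr h))))

theorem isFac_simple (S : Type) [Group S] (h : IsFac p (fun S [Group S] => HasGA p S) S) :
    IsSimpleGroup S := by
  rcases h with h | h | h | h | h | h
  · have : Fact (Nat.card S).Prime := ⟨h⟩
    exact isSimpleGroup_of_prime_card rfl
  · exact h.isSimpleGroup
  · exact h.1
  · exact h.1
  · exact h.1
  · exact h.isSimpleGroup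

theorem isFac_congr (S T : Type) [Group S] [Group T] (e : S ≃* T)
    (h : IsFac p (fun S [Group S] => HasGA p S) S) :
    IsFac p (fun S [Group S] => HasGA p S) T := by
  rcases h with h | h | h | h | h | h
  · left
    rw [← Nat.card_congr e.toEquiv]
    exact h
  · exact Or.inr (Or.inl (IsBottomFactor.congr e h))
  · exact Or.inr (Or.inr (Or.inl (h.congr e)))
  · exact Or.inr (Or.inr (Or.inr (Or.inl (h.congr e))))
  · exact Or.inr (Or.inr (Or.inr (Or.inr (Or.inl (h.congr e)))))
  · exact Or.inr (Or.inr (Or.inr (Or.inr (Or.inr (h.congr e)))))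

/-- **The lifting form of the closure theorem.** -/
theorem liftW_all (hS : SolvHStmt) (hGA : GALiftStmt) {E G : Type} [Group E] [Finite E]
    [Group G] {f : E →* G} (hf : Function.Surjective f)
    (hN : HasFactors (fun S [Group S] => IsFac p (fun S [Group S] => HasGA p S) S) f.ker) :
    LiftW p f :=
  LiftW.of_mk hf (liftW_of_factors isFac_congr isFac_simple
    (fun E _ _ N _ S _ k h φ => liftW_step hS hGA E N S k h φ) E f.ker hN)

/-- **The closure theorem over `k(X)`**, from the modules. -/
theorem closureK_of (hS : SolvHStmt) (hGA : GALiftStmt) (hInd : IndStmt) (hTo : ToHomStmt)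
    (hOf : OfHomStmt) (k : Type) [Field k] [Finite k] [CharP k p] (G : Type) [Group G] [Finite G]
    (N : Subgroup G) [N.Normal] (hN : HasFactors (fun S [Group S] => IsKernelFactor p S) N)
    (h : Occurs (G ⧸ N) (RatFunc k)) : Occurs G (RatFunc k) := by
  obtain ⟨Ω, _, _, x, κ, ρ, hx, ⟨e⟩, hρf, hρs⟩ := hTo p k (G ⧸ N) h
  have hκ : Finite κ := Finite.of_equiv k e.toEquiv
  obtain ⟨n, E', G', _, _, _, _, f', ψ, hf', ⟨φ⟩, hψf, hψs, H⟩ := hInd p Ω x hx κ hκ G (G ⧸ N)
    (QuotientGroup.mk' N) (QuotientGroup.mk'_surjective N) ρ hρf hρs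
  have h1 : HasFactors (fun S [Group S] => IsFac p (fun S [Group S] => HasGA p S) S) N :=
    hasFactors_mono (fun S _ hS => isKernelFactor_isFac hS) hN
  have h2 : HasFactors (fun S [Group S] => IsFac p (fun S [Group S] => HasGA p S) S) f'.ker := by
    exact (HasFactors.pow isFac_congr isFac_simple h1 n).congr isFac_congr isFac_simple
      (φ.trans (MulEquiv.piCongrRight fun _ =>
        MulEquiv.subgroupCongr (QuotientGroup.ker_mk' N))).symm
  obtain ⟨y, hle, ψ', hy, hψ'f, hψ's, hψ'⟩ := liftW_all (p := p) hS hGA hf' h2 Ω x hx ψ hψf hψs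
  obtain ⟨ρ', hρ'f, hρ's, -⟩ := H y hle ψ' hψ'f hψ's hψ'
  exact hOf p k Ω y κ G ρ' hy ⟨e⟩ hρ'f hρ's

/-- The regular version, by powers. -/
theorem regular_of_plain {k : Type} [Field k] [Finite k]
    (h0 : ∀ (G : Type) [Group G] [Finite G] (N : Subgroup G) [N.Normal],
      HasFactors (fun S [Group S] => IsKernelFactor p S) N → Occurs (G ⧸ N) (RatFunc k) →
      Occurs G (RatFunc k))
    (hc : ∀ (S T : Type) [Group S] [Group T], (S ≃* T) → IsKernelFactor p S →
      IsKernelFactor p T) (hs : ∀ (S : Type) [Group S], IsKernelFactor p S → IsSimpleGroup S)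
    {G : Type} [Group G] [Finite G] (N : Subgroup G) [N.Normal]
    (hN : HasFactors (fun S [Group S] => IsKernelFactor p S) N)
    (h : OccursRegularly (G ⧸ N) k) :
    (∀ (K : Type u) [Field K] [Algebra k K], OccursRegularly G K) ∧
      ∀ (K : Type u) [Field K] [Algebra k K], IsHilbertian K → Occurs G K := by
  have hk : HasFactors (fun S [Group S] => IsKernelFactor p S) (QuotientGroup.mk' N).ker := by
    rw [QuotientGroup.ker_mk']
    exact hN
  have hH : IsHilbertian (RatFunc k) := MP7fR.isHilbertian_ratFunc k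
  set n := (Nat.card (Abelianization G)).primeFactors.card + 1
  have h1 : Occurs (Fin n → G ⧸ N) (RatFunc k) := occurs_pow h hH n
  have hsurj := powHom_surjective n (QuotientGroup.mk' N) (QuotientGroup.mk'_surjective N)
  have h2 : Occurs (Fin n → G) (RatFunc k) := by
    refine h0 (Fin n → G) (powHom n (QuotientGroup.mk' N)).ker
      (hasFactors_kerPow hc hs hk n) ?_
    obtain ⟨L, i1, i2, e1, e2, ⟨e⟩⟩ := h1
    exact ⟨L, i1, i2, e1, e2,
      ⟨e.trans (QuotientGroup.quotientKerEquivOfSurjective _ hsurj).symm⟩⟩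
  have h3 := per_group (Nat.lt_succ_self _) (k := k) h2
  exact ⟨fun K _ _ => h3.1 K, fun K _ _ hK => h3.2 K hK⟩

end

end MP7K
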