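import Pool.Agent.Lib.MP_7f581e_K.R.Spec
import Pool.Agent.Lib.MP_7f581e_K.G5.All

/-!
# C36 (MP_7f581e_nt), GALift: kernels which are powers of a group with a GA realisation
-/

set_option autoImplicit false

namespace MP7K

open MP7Z MP7fR

theorem rGALift (hSol : SolvHStmt) : GALiftStmt := by
  intro p _ hS E G _ _ _ _ f hf S _ _ κ _ hga hθ
  obtain ⟨θ⟩ := hθ
  obtain ⟨n, ⟨e⟩⟩ := Finite.exists_equiv_fin κ
  let e₂ : (κ → S) ≃* (Fin n → S) :=
    { toFun := fun x i => x (e.symm i)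
      invFun := fun x i => x (e i)
      left_inv := fun x => by funext i; simp
      right_inv := fun x => by funext i; simp
      map_mul' := fun _ _ => rfl }
  have φ : f.ker ≃* (Fin n → S) := θ.trans e₂
  obtain ⟨hfin, hsim, hnc, L₀, _, _, a, ha, hfix⟩ := hga
  obtain ⟨G', E', _, _, _, _, h, π, f', hh, hπ, hsolv, hcomp, hsol⟩ :=
    G5.solvesOver_ga G5.g5Twist G5.g5Mob G5.g5Cst G5.g5Orb G5.g5Ind hnc a ha hfix f.ker φ
  intro Ω _ _ x hx ψ hψ hψs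
  let q : E ⧸ f.ker ≃* G := QuotientGroup.quotientKerEquivOfSurjective f hf
  have hq : ∀ b : E, q (b : E ⧸ f.ker) = f b := fun _ => rfl
  have hlev : FinLevel (q.symm.toMonoidHom.comp ψ) := by
    obtain ⟨T, hT⟩ := hψ
    refine ⟨T, fun γ hγ => ?_⟩
    change q.symm (ψ γ) = 1
    rw [hT γ hγ, map_one]
  obtain ⟨y, hle, ψ₁, hy, h1f, h1s, h1c⟩ := hS G' (E ⧸ f.ker) h hh hsolv Ω x hx
    (q.symm.toMonoidHom.comp ψ) hlev (q.symm.surjective.comp hψs)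
  have hH : IsHilbertian (RatFunc (ZMod p)) := MP7fR.isHilbertian_ratFunc (ZMod p)
  have h2 := MP7fE.solves_of_mv hH f' _ (hsol (RatFunc (ZMod p)))
  obtain ⟨ψ₂, h2f, h2s, h2c⟩ := hSol p E' G' f' h2 Ω y hy ψ₁ h1f h1s
  refine ⟨y, hle, π.comp ψ₂, hy, ?_, hπ.comp h2s, fun γ => ?_⟩
  · obtain ⟨T, hT⟩ := h2f
    refine ⟨T, fun γ hγ => ?_⟩
    change π (ψ₂ γ) = 1
    rw [hT γ hγ, map_one]
  · change f (π (ψ₂ γ)) = _
    rw [← hq, hcomp, h2c, h1c]
    exact q.apply_symm_apply _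

end MP7K
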