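import Pool.Agent.Lib.MP_7f581e_K.R.Spec
import Pool.Agent.Lib.MP_7f581e_Z.Fin.Reg

/-!
# C36: Galois groups of fields between `𝔽_p(x)` and `Ω` in the homomorphism language (helper4)
-/

set_option autoImplicit false

namespace MP7K

open MP7Z MP7fR

namespace H4

section gal

variable {K Ω : Type} [Field K] [Field Ω] [Algebra K Ω] [IsGalois K Ω]

/-- the field which belongs to a homomorphism of finite level -/
theorem exists_field {G : Type} [Group G] (ψ : (Ω ≃ₐ[K] Ω) →* G) (hψ : Function.Surjective ψ)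
    (S : Finset Ω) (hS : ∀ γ : Ω ≃ₐ[K] Ω, (∀ s ∈ S, γ s = s) → ψ γ = 1) :
    ∃ (L : IntermediateField K Ω) (_ : FiniteDimensional K L) (_ : IsGalois K L)
      (e : (L ≃ₐ[K] L) ≃* G), ∀ γ : Ω ≃ₐ[K] Ω, e (AlgEquiv.restrictNormalHom L γ) = ψ γ := by
  have hfd : FiniteDimensional K (IntermediateField.adjoin K (S : Set Ω)) :=
    IntermediateField.finiteDimensional_adjoin fun s _ => Algebra.IsIntegral.isIntegral s
  have hopen : IsOpen (ψ.ker : Set (Ω ≃ₐ[K] Ω)) := by
    have h1 := IntermediateField.fixingSubgroup_isOpen (IntermediateField.adjoin K (S : Set Ω))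
    refine Subgroup.isOpen_mono
      (H₁ := (IntermediateField.adjoin K (S : Set Ω)).fixingSubgroup) ?_ h1
    intro γ hγ
    rw [MonoidHom.mem_ker]
    refine hS γ fun s hs => ?_
    exact (IntermediateField.mem_fixingSubgroup_iff _ _).1 hγ s
      (IntermediateField.subset_adjoin K _ hs)
  have hclosed : IsClosed (ψ.ker : Set (Ω ≃ₐ[K] Ω)) := Subgroup.isClosed_of_isOpen _ hopen
  let H : ClosedSubgroup (Ω ≃ₐ[K] Ω) := ⟨ψ.ker, hclosed⟩
  have hHn : H.Normal := (inferInstance : ψ.ker.Normal)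
  have hfix : (IntermediateField.fixedField H.1).fixingSubgroup = ψ.ker :=
    InfiniteGalois.fixingSubgroup_fixedField H
  have h2 : FiniteDimensional K (IntermediateField.fixedField H.1) ∧
      IsGalois K (IntermediateField.fixedField H.1) := by
    rw [← InfiniteGalois.isOpen_and_normal_iff_finite_and_isGalois, hfix]
    exact ⟨hopen, inferInstance⟩
  have h3 := h2.2
  refine ⟨IntermediateField.fixedField H.1, h2.1, h2.2,
    (InfiniteGalois.normalAutEquivQuotient H).symm.trans
      (QuotientGroup.quotientKerEquivOfSurjective ψ hψ), fun γ => ?_⟩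
  have h4 : (InfiniteGalois.normalAutEquivQuotient H).symm
      (AlgEquiv.restrictNormalHom (IntermediateField.fixedField H.1) γ) =
      (QuotientGroup.mk γ : (Ω ≃ₐ[K] Ω) ⧸ H.1) := by
    rw [MulEquiv.symm_apply_eq]
    rfl
  rw [MulEquiv.trans_apply, h4]
  rfl

/-- an extension of `K` with group `G` gives a homomorphism of finite level -/
theorem exists_hom {G : Type} [Group G] (L : Type) [Field L] [Algebra K L] [FiniteDimensional K L]
    [IsGalois K L] [Algebra L Ω] [IsScalarTower K L Ω] (e : (L ≃ₐ[K] L) ≃* G) :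
    ∃ ψ : (Ω ≃ₐ[K] Ω) →* G, Function.Surjective ψ ∧
      (∃ S : Finset Ω, ∀ γ : Ω ≃ₐ[K] Ω, (∀ s ∈ S, γ s = s) → ψ γ = 1) ∧
      ∀ γ : Ω ≃ₐ[K] Ω, ψ γ = e (AlgEquiv.restrictNormalHom L γ) := by
  classical
  refine ⟨e.toMonoidHom.comp (AlgEquiv.restrictNormalHom L),
    e.surjective.comp (AlgEquiv.restrictNormalHom_surjective Ω), ?_, fun _ => rfl⟩
  let b := Module.finBasis K L
  refine ⟨Finset.univ.image fun i => algebraMap L Ω (b i), fun γ hγ => ?_⟩
  have h1 : ∀ i, AlgEquiv.restrictNormalHom L γ (b i) = b i := by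
    intro i
    apply (algebraMap L Ω).injective
    refine (AlgEquiv.restrictNormal_commutes γ L (b i)).trans ?_
    exact hγ _ (Finset.mem_image_of_mem _ (Finset.mem_univ i))
  have h2 : (AlgEquiv.restrictNormalHom L γ).toLinearMap = (1 : L ≃ₐ[K] L).toLinearMap :=
    b.ext fun i => h1 i
  have h3 : AlgEquiv.restrictNormalHom L γ = 1 :=
    AlgEquiv.ext fun y => congrArg (fun g : L →ₗ[K] L => g y) h2
  change e (AlgEquiv.restrictNormalHom L γ) = 1
  rw [h3, map_one]

/-- solutions of embedding problems in the homomorphism language -/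
theorem solves_gal [IsSepClosed Ω] {E G : Type} [Group E] [Group G] (f : E →* G)
    (hf : MP7fE.Solves K f) (ψ : (Ω ≃ₐ[K] Ω) →* G) (hψ : Function.Surjective ψ)
    (S : Finset Ω) (hS : ∀ γ : Ω ≃ₐ[K] Ω, (∀ s ∈ S, γ s = s) → ψ γ = 1) :
    ∃ ψ' : (Ω ≃ₐ[K] Ω) →* E, Function.Surjective ψ' ∧
      (∃ S : Finset Ω, ∀ γ : Ω ≃ₐ[K] Ω, (∀ s ∈ S, γ s = s) → ψ' γ = 1) ∧
      ∀ γ : Ω ≃ₐ[K] Ω, f (ψ' γ) = ψ γ := by
  obtain ⟨M, _, _, e, he⟩ := exists_field ψ hψ S hS
  obtain ⟨L, _, _, _, _, e', i, h1, h2⟩ := hf M e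
  let _ : Algebra M L := i.toAlgebra
  have hi : ∀ m : M, algebraMap M L m = i m := fun _ => rfl
  have htow : IsScalarTower K M L := IsScalarTower.of_algebraMap_eq fun a => by
    rw [hi, h1]
    rfl
  have hsep : Algebra.IsSeparable M L := Algebra.isSeparable_tower_top_of_isSeparable K M L
  let j : L →ₐ[M] Ω := IsSepClosed.lift
  let _ : Algebra L Ω := j.toRingHom.toAlgebra
  have hj : ∀ y : L, algebraMap L Ω y = j y := fun _ => rfl
  have htow2 : IsScalarTower K L Ω := IsScalarTower.of_algebraMap_eq fun a => by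
    rw [hj, IsScalarTower.algebraMap_apply K M L, j.commutes]
    rfl
  obtain ⟨ψ', hs, hfin, hψ'⟩ := exists_hom (Ω := Ω) L e'
  refine ⟨ψ', hs, hfin, fun γ => ?_⟩
  rw [hψ', ← he]
  rw [← e.symm_apply_eq]
  apply AlgEquiv.ext
  intro m
  apply (algebraMap M Ω).injective
  have h3 : algebraMap M Ω (AlgEquiv.restrictNormalHom M γ m) = γ (algebraMap M Ω m) :=
    AlgEquiv.restrictNormal_commutes γ M m
  have h4 : algebraMap L Ω (AlgEquiv.restrictNormalHom L γ (i m)) = γ (algebraMap L Ω (i m)) :=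
    AlgEquiv.restrictNormal_commutes γ L (i m)
  have h5 : ∀ m : M, algebraMap L Ω (i m) = algebraMap M Ω m := by
    intro m
    rw [hj, ← hi, j.commutes]
  rw [h3, ← h5 m, ← h4, h2, h5]

end gal

section stage

variable {p : ℕ} [Fact p.Prime] {Ω : Type} [Field Ω] [Algebra (ZMod p) Ω]

/-- the automorphisms over `K` as a subgroup of the automorphisms over `𝔽_p` -/
noncomputable def galEquiv {K : Type} [Field K] [Algebra K Ω] (H : Subgroup (Ω ≃ₐ[ZMod p] Ω))
    (hH : ∀ γ : Ω ≃ₐ[ZMod p] Ω, γ ∈ H ↔ ∀ r : K, γ (algebraMap K Ω r) = algebraMap K Ω r) :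
    (Ω ≃ₐ[K] Ω) ≃* H where
  toFun γ := ⟨AlgEquiv.ofRingEquiv (f := γ.toRingEquiv) (fun c =>
      RingHom.congr_fun (Subsingleton.elim ((γ.toRingEquiv : Ω →+* Ω).comp (algebraMap (ZMod p) Ω))
        (algebraMap (ZMod p) Ω)) c), (hH _).2 fun r => γ.commutes r⟩
  invFun γ := AlgEquiv.ofRingEquiv (f := (γ : Ω ≃ₐ[ZMod p] Ω).toRingEquiv) (fun r => (hH _).1 γ.2 r)
  left_inv _ := AlgEquiv.ext fun _ => rfl
  right_inv _ := Subtype.ext (AlgEquiv.ext fun _ => rfl)
  map_mul' _ _ := Subtype.ext (AlgEquiv.ext fun _ => rfl)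

/-- `Ω` is Galois over every field between `𝔽_p(x)` and `Ω` -/
theorem isGalois_of {x : Ω} (hst : IsStage p x) {K : Type} [Field K] (ι : K →+* Ω)
    (hι : ∀ f ∈ IntermediateField.adjoin (ZMod p) {x}, ∃ r, ι r = f) :
    @IsGalois K _ Ω _ ι.toAlgebra := by
  have := hst.sepClosed
  have := hst.sep
  let _ : Algebra K Ω := ι.toAlgebra
  have h1 : Algebra.IsSeparable K Ω := by
    refine ⟨fun z => ?_⟩
    have h2 : IsSeparable (IntermediateField.adjoin (ZMod p) {x}) z :=
      Algebra.IsSeparable.isSeparable _ z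
    choose i hi using fun f : IntermediateField.adjoin (ZMod p) {x} => hι f f.2
    let j : IntermediateField.adjoin (ZMod p) {x} →+* K :=
      { toFun := i
        map_one' := ι.injective (by rw [hi, map_one]; rfl)
        map_mul' := fun a b => ι.injective (by
          rw [hi, map_mul, hi, hi]; rfl)
        map_zero' := ι.injective (by rw [hi, map_zero]; rfl)
        map_add' := fun a b => ι.injective (by
          rw [hi, map_add, hi, hi]; rfl) }
    let P := (minpoly (IntermediateField.adjoin (ZMod p) {x}) z).map j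
    have hP : P.Separable := (Polynomial.separable_map j).2 h2
    have hz : Polynomial.aeval z P = 0 := by
      rw [Polynomial.aeval_def, Polynomial.eval₂_map]
      have h3 : (algebraMap K Ω).comp j =
          algebraMap (IntermediateField.adjoin (ZMod p) {x}) Ω := RingHom.ext fun a => hi a
      rw [h3]
      exact minpoly.aeval _ z
    exact hP.of_dvd (minpoly.dvd _ _ hz)
  have h2 : IsSepClosure K Ω := ⟨hst.sepClosed, h1⟩
  infer_instance

/-! ## the fields `k(x)` -/

variable {x : Ω} {k : Type} [Field k] [Finite k]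

theorem eval₂_ne (hst : IsStage p x) (τ : k →+* Ω) {f : Polynomial k} (hf : f ≠ 0) :
    Polynomial.eval₂ τ x f ≠ 0 := by
  intro h
  let _ : Algebra k Ω := τ.toAlgebra
  have hp : CharP Ω p := charP_of_injective_algebraMap (algebraMap (ZMod p) Ω).injective p
  have hpk : CharP k p := (RingHom.charP_iff τ τ.injective p).2 hp
  let _ : Algebra (ZMod p) k := ZMod.algebra k p
  have htow : IsScalarTower (ZMod p) k Ω := IsScalarTower.of_algebraMap_eq' (Subsingleton.elim _ _)
  have halg : Algebra.IsAlgebraic (ZMod p) k := Algebra.IsAlgebraic.of_finite _ _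
  have h1 : IsAlgebraic k x := ⟨f, hf, h⟩
  exact hst.transc (h1.restrictScalars (ZMod p))

/-- The embedding of `k(X)` given by `τ` and `x`. -/
noncomputable def embk (hst : IsStage p x) (τ : k →+* Ω) : RatFunc k →+* Ω :=
  RatFunc.liftRingHom (Polynomial.eval₂RingHom τ x) (by
    intro f hf
    rw [Submonoid.mem_comap, mem_nonZeroDivisors_iff_ne_zero]
    exact eval₂_ne hst τ (nonZeroDivisors.ne_zero hf))

theorem embk_poly (hst : IsStage p x) (τ : k →+* Ω) (f : Polynomial k) :
    embk hst τ (algebraMap (Polynomial k) (RatFunc k) f) = Polynomial.eval₂ τ x f := by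
  rw [embk, RatFunc.liftRingHom_algebraMap]
  rfl

theorem embk_C (hst : IsStage p x) (τ : k →+* Ω) (c : k) :
    embk hst τ (algebraMap (Polynomial k) (RatFunc k) (Polynomial.C c)) = τ c := by
  rw [embk_poly, Polynomial.eval₂_C]

theorem embk_X (hst : IsStage p x) (τ : k →+* Ω) :
    embk hst τ (algebraMap (Polynomial k) (RatFunc k) Polynomial.X) = x := by
  rw [embk_poly, Polynomial.eval₂_X]

theorem mem_range_embk (hst : IsStage p x) (τ : k →+* Ω) {f : Ω}
    (hf : f ∈ IntermediateField.adjoin (ZMod p) {x}) : ∃ r, embk hst τ r = f := by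
  have hp : CharP Ω p := charP_of_injective_algebraMap (algebraMap (ZMod p) Ω).injective p
  have hpk : CharP k p := (RingHom.charP_iff τ τ.injective p).2 hp
  let _ : Algebra (ZMod p) k := ZMod.algebra k p
  let E : IntermediateField (ZMod p) Ω :=
    { (embk hst τ).fieldRange with
      algebraMap_mem' := fun c => ⟨algebraMap (Polynomial k) (RatFunc k)
        (Polynomial.C (algebraMap (ZMod p) k c)), by
        rw [embk_C]
        exact RingHom.congr_fun (Subsingleton.elim (τ.comp (algebraMap (ZMod p) k))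
          (algebraMap (ZMod p) Ω)) c⟩ }
  have h : IntermediateField.adjoin (ZMod p) {x} ≤ E := by
    rw [IntermediateField.adjoin_le_iff]
    intro a ha
    rw [Set.mem_singleton_iff.1 ha]
    exact ⟨_, embk_X hst τ⟩
  exact h hf

theorem mem_Gk_iff (hst : IsStage p x) (τ : k →+* Ω) {κ : IntermediateField (ZMod p) Ω}
    (hκ : ∀ a, a ∈ κ ↔ ∃ b, τ b = a) (γ : Ω ≃ₐ[ZMod p] Ω) :
    γ ∈ Gk p x κ ↔ ∀ r : RatFunc k, γ (embk hst τ r) = embk hst τ r := by
  constructor
  · rintro ⟨h1, h2⟩ r
    have hx : γ x = x := mem_Gx.1 h1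
    have hc : ∀ c, γ (τ c) = τ c := fun c => h2 (τ c) ((hκ _).2 ⟨c, rfl⟩)
    have h3 : (γ.toRingEquiv : Ω →+* Ω).comp (embk hst τ) = embk hst τ := by
      apply IsFractionRing.ringHom_ext (A := Polynomial k)
      intro P
      have h2 : ((γ.toRingEquiv : Ω →+* Ω).comp (embk hst τ)).comp
          (algebraMap (Polynomial k) (RatFunc k)) =
          (embk hst τ).comp (algebraMap (Polynomial k) (RatFunc k)) := by
        apply Polynomial.ringHom_ext
        · intro c
          change γ (embk hst τ (algebraMap (Polynomial k) (RatFunc k) (Polynomial.C c))) =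
            embk hst τ (algebraMap (Polynomial k) (RatFunc k) (Polynomial.C c))
          rw [embk_C, hc]
        · change γ (embk hst τ (algebraMap (Polynomial k) (RatFunc k) Polynomial.X)) =
            embk hst τ (algebraMap (Polynomial k) (RatFunc k) Polynomial.X)
          rw [embk_X, hx]
      exact congrArg (fun g : Polynomial k →+* Ω => g P) h2
    exact congrArg (fun g : RatFunc k →+* Ω => g r) h3
  · intro h
    refine ⟨mem_Gx.2 ?_, fun a ha => ?_⟩
    · rw [← embk_X hst τ]
      exact h _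
    · obtain ⟨b, rfl⟩ := (hκ a).1 ha
      rw [← embk_C hst τ b]
      exact h _

end stage

end H4

end MP7K
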