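import Pool.Agent.Lib.MP_7f581e_K.R.Spec

/-!
# C36, Ind: from `κ(x)` to `𝔽_p(x)` by induction
-/

set_option autoImplicit false

namespace MP7K

open MP7Z MP7fR

namespace IndA

section wreath

variable (I Q : Type) [Group Q]

/-- the permutations act on the functions -/
def act : Equiv.Perm I →* MulAut (I → Q) where
  toFun π :=
    { toFun := fun q i => q (π⁻¹ i)
      invFun := fun q i => q (π i)
      left_inv := fun q => by
        funext i
        simp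
      right_inv := fun q => by
        funext i
        simp
      map_mul' := fun _ _ => rfl }
  map_one' := by
    ext q i
    rfl
  map_mul' π σ := by
    ext q i
    change q ((π * σ)⁻¹ i) = q (σ⁻¹ (π⁻¹ i))
    rw [mul_inv_rev]
    rfl

/-- the wreath product -/
abbrev Wr : Type := SemidirectProduct (I → Q) (Equiv.Perm I) (act I Q)

variable {I Q}

theorem mul_left' (a b : Wr I Q) (i : I) :
    (a * b).left i = a.left i * b.left (a.right⁻¹ i) := rfl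

theorem mul_right' (a b : Wr I Q) : (a * b).right = a.right * b.right := rfl

theorem wext {a b : Wr I Q} (h1 : ∀ i, a.left i = b.left i) (h2 : ∀ i, a.right i = b.right i) :
    a = b :=
  SemidirectProduct.ext (funext h1) (Equiv.ext h2)

variable {E G : Type} [Group E] [Group G]

/-- the map of wreath products -/
def wmap (I : Type) (f : E →* G) : Wr I E →* Wr I G where
  toFun a := ⟨fun i => f (a.left i), a.right⟩
  map_one' := wext (fun i => f.map_one) fun _ => rfl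
  map_mul' a b := wext (fun i => by
    change f ((a * b).left i) = f (a.left i) * f (b.left (a.right⁻¹ i))
    rw [mul_left', map_mul]) fun _ => rfl

theorem wmap_left (f : E →* G) (a : Wr I E) (i : I) : (wmap I f a).left i = f (a.left i) := rfl

theorem wmap_right (f : E →* G) (a : Wr I E) : (wmap I f a).right = a.right := rfl

instance [Finite I] [Finite Q] : Finite (Wr I Q) :=
  Finite.of_injective (fun a => (a.left, a.right) : Wr I Q → (I → Q) × Equiv.Perm I)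
    fun a b h => SemidirectProduct.ext (congrArg Prod.fst h) (congrArg Prod.snd h)

end wreath

section induct

variable {𝔾 : Type} [Group 𝔾] (Γ : Subgroup 𝔾)

/-- the base point -/
def bp : 𝔾 ⧸ Γ := QuotientGroup.mk 1

open Classical in
/-- a section with value `1` at the base point -/
noncomputable def sec (i : 𝔾 ⧸ Γ) : 𝔾 := if i = bp Γ then 1 else Quotient.out i

theorem sec_mk (i : 𝔾 ⧸ Γ) : (QuotientGroup.mk (sec Γ i) : 𝔾 ⧸ Γ) = i := by
  unfold sec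
  by_cases h : i = bp Γ
  · rw [if_pos h, h]
    rfl
  · rw [if_neg h]
    exact Quotient.out_eq i

theorem sec_bp : sec Γ (bp Γ) = 1 := if_pos rfl

theorem sec_mem (γ : 𝔾) (i : 𝔾 ⧸ Γ) : (sec Γ i)⁻¹ * γ * sec Γ (γ⁻¹ • i) ∈ Γ := by
  have h1 : (QuotientGroup.mk (γ * sec Γ (γ⁻¹ • i)) : 𝔾 ⧸ Γ) = QuotientGroup.mk (sec Γ i) := by
    rw [sec_mk, ← smul_eq_mul, ← MulAction.Quotient.smul_mk, sec_mk, smul_inv_smul]
  rw [mul_assoc]
  exact QuotientGroup.eq.mp h1.symm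

variable {Γ} {G : Type} [Group G]

/-- the induced homomorphism -/
noncomputable def ind (ρ : Γ →* G) : 𝔾 →* Wr (𝔾 ⧸ Γ) G where
  toFun γ := ⟨fun i => ρ ⟨(sec Γ i)⁻¹ * γ * sec Γ (γ⁻¹ • i), sec_mem Γ γ i⟩, MulAction.toPerm γ⟩
  map_one' := by
    refine wext (fun i => ?_) fun i => ?_
    · change ρ ⟨(sec Γ i)⁻¹ * 1 * sec Γ ((1 : 𝔾)⁻¹ • i), _⟩ = 1
      have : (⟨(sec Γ i)⁻¹ * 1 * sec Γ ((1 : 𝔾)⁻¹ • i), sec_mem Γ 1 i⟩ : Γ) = 1 := by
        apply Subtype.ext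
        simp
      rw [this, map_one]
    · change (1 : 𝔾) • i = i
      exact one_smul 𝔾 i
  map_mul' γ δ := by
    refine wext (fun i => ?_) fun i => ?_
    · rw [mul_left']
      change ρ ⟨(sec Γ i)⁻¹ * (γ * δ) * sec Γ ((γ * δ)⁻¹ • i), _⟩ =
        ρ ⟨(sec Γ i)⁻¹ * γ * sec Γ (γ⁻¹ • i), _⟩ *
          ρ ⟨(sec Γ (γ⁻¹ • i))⁻¹ * δ * sec Γ (δ⁻¹ • γ⁻¹ • i), sec_mem Γ δ (γ⁻¹ • i)⟩
      rw [← map_mul]
      congr 1
      apply Subtype.ext
      change (sec Γ i)⁻¹ * (γ * δ) * sec Γ ((γ * δ)⁻¹ • i) =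
        ((sec Γ i)⁻¹ * γ * sec Γ (γ⁻¹ • i)) *
          ((sec Γ (γ⁻¹ • i))⁻¹ * δ * sec Γ (δ⁻¹ • γ⁻¹ • i))
      rw [mul_inv_rev, mul_smul]
      group
    · change (γ * δ) • i = γ • δ • i
      exact mul_smul γ δ i

theorem ind_right (ρ : Γ →* G) (γ : 𝔾) (i : 𝔾 ⧸ Γ) : (ind ρ γ).right i = γ • i := rfl

theorem bp_fix {γ : 𝔾} : γ • bp Γ = bp Γ ↔ γ ∈ Γ := by
  unfold bp
  rw [MulAction.Quotient.smul_mk, smul_eq_mul, mul_one]
  constructor
  · intro h
    have h1 := QuotientGroup.eq.mp h.symm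
    rwa [inv_one, one_mul] at h1
  · intro h
    refine (QuotientGroup.eq.mpr ?_).symm
    rwa [inv_one, one_mul]

theorem ind_bp (ρ : Γ →* G) {γ : 𝔾} (h : γ ∈ Γ) : (ind ρ γ).left (bp Γ) = ρ ⟨γ, h⟩ := by
  change ρ ⟨(sec Γ (bp Γ))⁻¹ * γ * sec Γ (γ⁻¹ • bp Γ), _⟩ = _
  congr 1
  apply Subtype.ext
  change (sec Γ (bp Γ))⁻¹ * γ * sec Γ (γ⁻¹ • bp Γ) = γ
  rw [bp_fix.mpr (Γ.inv_mem h), sec_bp, inv_one, one_mul, mul_one]

/-- finite level -/
theorem ind_one (ρ : Γ →* G) {γ : 𝔾}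
    (h : ∀ i : 𝔾 ⧸ Γ, ∃ hi : (sec Γ i)⁻¹ * γ * sec Γ i ∈ Γ, ρ ⟨_, hi⟩ = 1) : ind ρ γ = 1 := by
  have hfix : ∀ i : 𝔾 ⧸ Γ, γ • i = i := by
    intro i
    obtain ⟨hi, -⟩ := h i
    have h1 : (QuotientGroup.mk (sec Γ i) : 𝔾 ⧸ Γ) = QuotientGroup.mk (γ * sec Γ i) := by
      rw [QuotientGroup.eq, ← mul_assoc]
      exact hi
    have h2 : γ • (QuotientGroup.mk (sec Γ i) : 𝔾 ⧸ Γ) = QuotientGroup.mk (sec Γ i) := by
      rw [MulAction.Quotient.smul_mk, smul_eq_mul, ← h1]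
    rwa [sec_mk] at h2
  refine wext (fun i => ?_) fun i => ?_
  · obtain ⟨hi, h1⟩ := h i
    change ρ ⟨(sec Γ i)⁻¹ * γ * sec Γ (γ⁻¹ • i), _⟩ = 1
    rw [← h1]
    congr 1
    apply Subtype.ext
    change (sec Γ i)⁻¹ * γ * sec Γ (γ⁻¹ • i) = (sec Γ i)⁻¹ * γ * sec Γ i
    have h3 : γ⁻¹ • i = i := by
      rw [inv_smul_eq_iff, hfix]
    rw [h3]
  · exact hfix i

end induct

section kernel

variable {I E G : Type} [Group E] [Group G]

/-- the kernel of the map of wreath products -/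
noncomputable def kerEquiv (f : E →* G) (G' : Subgroup (Wr I G)) {n : ℕ} (e : I ≃ Fin n) :
    ((wmap I f).subgroupComap G').ker ≃* (Fin n → f.ker) where
  toFun w := fun m => ⟨(w.1.1).left (e.symm m), by
    have h1 := w.2
    rw [MonoidHom.mem_ker] at h1
    have h2 : wmap I f w.1.1 = 1 := congrArg Subtype.val h1
    have h3 : (wmap I f w.1.1).left (e.symm m) = (1 : Wr I G).left (e.symm m) := by rw [h2]
    exact h3⟩
  invFun q := ⟨⟨⟨fun i => (q (e i)).1, 1⟩, by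
      have : wmap I f ⟨fun i => (q (e i)).1, 1⟩ = 1 :=
        wext (fun i => (q (e i)).2) fun _ => rfl
      change wmap I f ⟨fun i => (q (e i)).1, 1⟩ ∈ G'
      rw [this]
      exact G'.one_mem⟩, by
      rw [MonoidHom.mem_ker]
      apply Subtype.ext
      exact wext (fun i => (q (e i)).2) fun _ => rfl⟩
  left_inv w := by
    apply Subtype.ext
    apply Subtype.ext
    have h1 := w.2
    rw [MonoidHom.mem_ker] at h1
    have h2 : wmap I f w.1.1 = 1 := congrArg Subtype.val h1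
    refine wext (fun i => ?_) fun i => ?_
    · change (w.1.1).left (e.symm (e i)) = (w.1.1).left i
      rw [e.symm_apply_apply]
    · have h3 : (wmap I f w.1.1).right = (1 : Wr I G).right := by rw [h2]
      change i = (w.1.1).right i
      rw [wmap_right] at h3
      rw [h3]
      rfl
  right_inv q := by
    funext m
    apply Subtype.ext
    change (q (e (e.symm m))).1 = (q m).1
    rw [e.apply_symm_apply]
  map_mul' w v := by
    funext m
    apply Subtype.ext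
    have h1 := w.2
    rw [MonoidHom.mem_ker] at h1
    have h2 : wmap I f w.1.1 = 1 := congrArg Subtype.val h1
    have h3 : (w.1.1).right = 1 := by
      have h4 : (wmap I f w.1.1).right = (1 : Wr I G).right := by rw [h2]
      exact h4
    change (w.1.1).left (e.symm m) * (v.1.1).left ((w.1.1).right⁻¹ (e.symm m)) =
      (w.1.1).left (e.symm m) * (v.1.1).left (e.symm m)
    rw [h3]
    rfl

end kernel

/-- the abstract induction theorem -/
theorem main {𝔾 : Type} [Group 𝔾] (Γ : Subgroup 𝔾) [Finite (𝔾 ⧸ Γ)] {E G : Type} [Group E]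
    [Finite E] [Group G] [Finite G] (f : E →* G) (hf : Function.Surjective f) (ρ : Γ →* G)
    (hρ : Function.Surjective ρ) :
    ∃ (n : ℕ) (E' G' : Type) (_ : Group E') (_ : Finite E') (_ : Group G') (_ : Finite G')
      (f' : E' →* G') (ψ : 𝔾 →* G'), Function.Surjective f' ∧
      Nonempty (f'.ker ≃* (Fin n → f.ker)) ∧ Function.Surjective ψ ∧
      (∀ γ : 𝔾, (∀ i : 𝔾 ⧸ Γ, ∃ hi : (sec Γ i)⁻¹ * γ * sec Γ i ∈ Γ, ρ ⟨_, hi⟩ = 1) → ψ γ = 1) ∧
      ∀ (H : Type) [Group H] (j : H →* 𝔾) (ψ' : H →* E'), Function.Surjective ψ' →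
        (∀ h, f' (ψ' h) = ψ (j h)) →
        ∃ ρ' : Γ.comap j →* E, Function.Surjective ρ' ∧
          (∀ h : Γ.comap j, f (ρ' h) = ρ ⟨j h, h.2⟩) ∧ ∀ h : Γ.comap j, ψ' h = 1 → ρ' h = 1 := by
  obtain ⟨n, ⟨e⟩⟩ := Finite.exists_equiv_fin (𝔾 ⧸ Γ)
  let G' : Subgroup (Wr (𝔾 ⧸ Γ) G) := (ind ρ).range
  let E' : Subgroup (Wr (𝔾 ⧸ Γ) E) := G'.comap (wmap (𝔾 ⧸ Γ) f)
  let f' : E' →* G' := (wmap (𝔾 ⧸ Γ) f).subgroupComap G'
  let ψ : 𝔾 →* G' := (ind ρ).rangeRestrict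
  refine ⟨n, E', G', inferInstance, inferInstance, inferInstance, inferInstance, f', ψ, ?_,
    ⟨kerEquiv f G' e⟩, (ind ρ).rangeRestrict_surjective, ?_, ?_⟩
  · rintro ⟨w, hw⟩
    choose q hq using fun i => hf (w.left i)
    have h1 : wmap (𝔾 ⧸ Γ) f ⟨q, w.right⟩ = w := wext hq fun _ => rfl
    refine ⟨⟨⟨q, w.right⟩, ?_⟩, Subtype.ext h1⟩
    change wmap (𝔾 ⧸ Γ) f ⟨q, w.right⟩ ∈ G'
    rw [h1]
    exact hw
  · intro γ h
    exact Subtype.ext (ind_one ρ h)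
  · intro H _ j ψ' hψ' hc
    have hw : ∀ h : H, wmap (𝔾 ⧸ Γ) f (ψ' h : Wr (𝔾 ⧸ Γ) E) = ind ρ (j h) := fun h =>
      congrArg Subtype.val (hc h)
    have hr : ∀ (h : H) (i : 𝔾 ⧸ Γ), (ψ' h : Wr (𝔾 ⧸ Γ) E).right i = j h • i := by
      intro h i
      rw [← wmap_right f, hw h]
      rfl
    have hb : ∀ h : Γ.comap j, (ψ' h : Wr (𝔾 ⧸ Γ) E).right⁻¹ (bp Γ) = bp Γ := by
      intro h
      have h5 : j h ∈ Γ := h.2
      rw [Equiv.Perm.inv_eq_iff_eq, hr]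
      exact (bp_fix.mpr h5).symm
    let ρ' : Γ.comap j →* E :=
      { toFun := fun h => (ψ' h : Wr (𝔾 ⧸ Γ) E).left (bp Γ)
        map_one' := by
          change ((ψ' (1 : H) : E') : Wr (𝔾 ⧸ Γ) E).left (bp Γ) = 1
          rw [map_one]
          rfl
        map_mul' := fun h k => by
          change ((ψ' ((h : H) * (k : H)) : E') : Wr (𝔾 ⧸ Γ) E).left (bp Γ) = _
          rw [map_mul]
          change ((ψ' (h : H) : E') : Wr (𝔾 ⧸ Γ) E).left (bp Γ) *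
            ((ψ' (k : H) : E') : Wr (𝔾 ⧸ Γ) E).left
              (((ψ' (h : H) : E') : Wr (𝔾 ⧸ Γ) E).right⁻¹ (bp Γ)) = _
          rw [hb h] }
    refine ⟨ρ', ?_, ?_, ?_⟩
    · intro e₀
      obtain ⟨γ₀, hγ₀⟩ := hρ (f e₀)
      choose q hq using fun i => hf ((ind ρ γ₀).left i)
      classical
      let q' : 𝔾 ⧸ Γ → E := fun i => if i = bp Γ then e₀ else q i
      have h1 : wmap (𝔾 ⧸ Γ) f ⟨q', (ind ρ γ₀).right⟩ = ind ρ γ₀ := by
        refine wext (fun i => ?_) fun _ => rfl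
        change f (q' i) = _
        by_cases hi : i = bp Γ
        · rw [hi, ind_bp ρ γ₀.2]
          change f (if bp Γ = bp Γ then e₀ else q (bp Γ)) = ρ γ₀
          rw [if_pos rfl, hγ₀]
        · change f (if i = bp Γ then e₀ else q i) = _
          rw [if_neg hi, hq]
      have h2 : (⟨q', (ind ρ γ₀).right⟩ : Wr (𝔾 ⧸ Γ) E) ∈ E' := by
        change wmap (𝔾 ⧸ Γ) f ⟨q', (ind ρ γ₀).right⟩ ∈ G'
        rw [h1]
        exact ⟨γ₀, rfl⟩
      obtain ⟨h, hh⟩ := hψ' ⟨_, h2⟩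
      have h3 : (ψ' h : Wr (𝔾 ⧸ Γ) E) = ⟨q', (ind ρ γ₀).right⟩ := congrArg Subtype.val hh
      have h4 : j h ∈ Γ := by
        rw [← bp_fix, ← hr h (bp Γ), h3]
        change (γ₀ : 𝔾) • bp Γ = bp Γ
        exact bp_fix.mpr γ₀.2
      refine ⟨⟨h, h4⟩, ?_⟩
      change (ψ' h : Wr (𝔾 ⧸ Γ) E).left (bp Γ) = e₀
      rw [h3]
      change (if bp Γ = bp Γ then e₀ else q (bp Γ)) = e₀
      rw [if_pos rfl]
    · intro h
      change f ((ψ' h : Wr (𝔾 ⧸ Γ) E).left (bp Γ)) = _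
      rw [← wmap_left, hw h]
      exact ind_bp ρ h.2
    · intro h h1
      change (ψ' h : Wr (𝔾 ⧸ Γ) E).left (bp Γ) = 1
      rw [h1]
      rfl

end IndA

open IndA in
/-- **Ind.** -/
theorem rInd : IndStmt := by
  intro p _ Ω _ _ x _ κ _ E G _ _ _ _ f hf ρ hρ hρs
  classical
  let Γ : Subgroup (Gx p x) := (Gk p x κ).subgroupOf (Gx p x)
  -- the index is finite
  have hfin : Finite (Gx p x ⧸ Γ) := by
    let q := Nat.card κ
    have hq : 1 < q := Finite.one_lt_card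
    let R : Set Ω := {z | z ^ q = z}
    have hR : R.Finite := by
      have h0 : (Polynomial.X ^ q - Polynomial.X : Polynomial Ω) ≠ 0 :=
        FiniteField.X_pow_card_sub_X_ne_zero Ω hq
      refine (Polynomial.finite_setOfPred_isRoot h0).subset fun z hz => ?_
      have hz' : z ^ q = z := hz
      simp [Polynomial.IsRoot, hz']
    have hκ : ∀ (γ : Gx p x) (a : κ), (γ : Ω ≃ₐ[ZMod p] Ω) a ∈ R := by
      intro γ a
      have : Fintype κ := Fintype.ofFinite κ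
      have h1 : a ^ q = a := by
        change a ^ (Nat.card κ) = a
        rw [Nat.card_eq_fintype_card]
        exact FiniteField.pow_card a
      have h2 : (a : Ω) ^ q = a := congrArg Subtype.val h1
      change ((γ : Ω ≃ₐ[ZMod p] Ω) a) ^ q = (γ : Ω ≃ₐ[ZMod p] Ω) a
      rw [← map_pow, h2]
    have : Finite R := hR
    have hmem : ∀ γ δ : Gx p x, (QuotientGroup.mk γ : Gx p x ⧸ Γ) = QuotientGroup.mk δ ↔
        ∀ a : κ, (γ : Ω ≃ₐ[ZMod p] Ω) a = (δ : Ω ≃ₐ[ZMod p] Ω) a := by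
      intro γ δ
      rw [QuotientGroup.eq, Subgroup.mem_subgroupOf]
      constructor
      · rintro ⟨-, h⟩ a
        have h1 := h a a.2
        change (γ : Ω ≃ₐ[ZMod p] Ω).symm ((δ : Ω ≃ₐ[ZMod p] Ω) a) = a at h1
        rw [AlgEquiv.symm_apply_eq] at h1
        exact h1.symm
      · intro h
        refine ⟨(γ⁻¹ * δ).2, fun a ha => ?_⟩
        change (γ : Ω ≃ₐ[ZMod p] Ω).symm ((δ : Ω ≃ₐ[ZMod p] Ω) a) = a
        rw [AlgEquiv.symm_apply_eq]
        exact (h ⟨a, ha⟩).symm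
    let Φ : Gx p x ⧸ Γ → (κ → R) := Quotient.lift
      (fun γ : Gx p x => fun a : κ => (⟨(γ : Ω ≃ₐ[ZMod p] Ω) a, hκ γ a⟩ : R)) (by
        intro γ δ h
        funext a
        apply Subtype.ext
        exact (hmem γ δ).mp (Quotient.sound h) a)
    refine Finite.of_injective Φ ?_
    intro i j hij
    obtain ⟨γ, rfl⟩ := QuotientGroup.mk_surjective i
    obtain ⟨δ, rfl⟩ := QuotientGroup.mk_surjective j
    rw [hmem]
    intro a
    exact congrArg Subtype.val (congrFun hij a)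
  -- the homomorphism on the subgroup
  let σ : Γ →* Gk p x κ :=
    { toFun := fun γ => ⟨(γ : Gx p x), γ.2⟩
      map_one' := rfl
      map_mul' := fun _ _ => rfl }
  have hσ : Function.Surjective σ := fun γ => ⟨⟨⟨γ, γ.2.1⟩, γ.2⟩, rfl⟩
  obtain ⟨n, E', G', i1, i2, i3, i4, f', ψ, h1, h2, h3, h4, h5⟩ :=
    main Γ f hf (ρ.comp σ) (hρs.comp hσ)
  refine ⟨n, E', G', i1, i2, i3, i4, f', ψ, h1, h2, ?_, h3, ?_⟩
  · obtain ⟨S, hS⟩ := hρ
    have hκ : (κ : Set Ω).Finite := Set.toFinite _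
    let T : Finset Ω := (Finset.univ : Finset (Fin (Nat.card (Gx p x ⧸ Γ)))).biUnion fun m =>
      (S ∪ hκ.toFinset).image
        (((sec Γ ((Finite.equivFin (Gx p x ⧸ Γ)).symm m) : Gx p x) : Ω ≃ₐ[ZMod p] Ω))
    refine ⟨T, fun γ hγ => h4 γ fun i => ?_⟩
    have hT : ∀ s ∈ S ∪ hκ.toFinset,
        (γ : Ω ≃ₐ[ZMod p] Ω) (((sec Γ i : Gx p x) : Ω ≃ₐ[ZMod p] Ω) s) =
          ((sec Γ i : Gx p x) : Ω ≃ₐ[ZMod p] Ω) s := by
      intro s hs
      apply hγ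
      rw [Finset.mem_biUnion]
      refine ⟨Finite.equivFin _ i, Finset.mem_univ _, ?_⟩
      rw [Equiv.symm_apply_apply]
      exact Finset.mem_image_of_mem _ hs
    have hT' : ∀ s ∈ S ∪ hκ.toFinset,
        (((sec Γ i)⁻¹ * γ * sec Γ i : Gx p x) : Ω ≃ₐ[ZMod p] Ω) s = s := by
      intro s hs
      change ((sec Γ i : Gx p x) : Ω ≃ₐ[ZMod p] Ω).symm ((γ : Ω ≃ₐ[ZMod p] Ω)
        (((sec Γ i : Gx p x) : Ω ≃ₐ[ZMod p] Ω) s)) = s
      rw [hT s hs]
      exact AlgEquiv.symm_apply_apply _ s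
    have hm : (sec Γ i)⁻¹ * γ * sec Γ i ∈ Γ := by
      rw [Subgroup.mem_subgroupOf]
      refine ⟨((sec Γ i)⁻¹ * γ * sec Γ i : Gx p x).2, fun a ha => ?_⟩
      exact hT' a (Finset.mem_union_right _ (hκ.mem_toFinset.mpr ha))
    refine ⟨hm, hS _ fun s hs => ?_⟩
    exact hT' s (Finset.mem_union_left _ hs)
  · intro y hle ψ' hψ'f hψ's hψ'
    obtain ⟨ρ', k1, k2, k3⟩ := h5 (Gx p y) (Subgroup.inclusion hle) ψ' hψ's hψ'
    let τ : Gk p y κ →* Γ.comap (Subgroup.inclusion hle) :=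
      { toFun := fun γ => ⟨⟨γ, γ.2.1⟩, Gk_le κ hle γ.2⟩
        map_one' := rfl
        map_mul' := fun _ _ => rfl }
    have hτ : Function.Surjective τ := fun γ => ⟨⟨γ.1, ⟨γ.1.2, γ.2.2⟩⟩, rfl⟩
    obtain ⟨S, hS⟩ := hψ'f
    refine ⟨ρ'.comp τ, ⟨S, fun γ hγ => ?_⟩, k1.comp hτ, fun γ => ?_⟩
    · exact k3 (τ γ) (hS _ hγ)
    · exact k2 (τ γ)

end MP7K
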