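import Pool.Agent.Lib.MP_7f581e_K.R.P2
import Pool.Agent.Lib.MP_7f581e_K.L.Main

/-!
# C36, Part III for realizations which need not be regular: the weak solution
-/

set_option autoImplicit false

namespace MP7K

open MP7Z MP7Z.EPL MP7Z.EPL.WeakAux

namespace Rel

theorem chain (h1 : LStmtCSW) (h2 : BaseWr) (p : ℕ) [Fact p.Prime] (ℓ : ℕ) (hℓ : ℓ.Prime)
    (hp : ℓ ≠ p) (Ω : Type) [Field Ω] [Algebra (ZMod p) Ω] (x : Ω) (hx : IsStage p x)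
    (H : Subgroup (Ω ≃ₐ[ZMod p] Ω)) (hH : H ≤ Gx p x) (hO : Opn p x H)
    (hζ : ∀ ζ : Ω, ζ ^ ℓ = 1 → ∀ γ ∈ H, γ ζ = ζ)
    (P : Type) [Group P] [Finite P] (ρ : H →* P) (hρ : FinLevel ρ) :
    ∀ (n : ℕ) (P' : Type) [Group P'] [Finite P'] (f : P' →* P), Nat.card P' ≤ n →
      Function.Surjective f → IsPGroup ℓ P' →
      ∃ (y : Ω) (H' : Subgroup (Ω ≃ₐ[ZMod p] Ω)), IsStage p y ∧ H' = H ⊓ Gx p y ∧
        (∃ hle : Gx p y ≤ Gx p x, ∀ (G : Type) [Group G] [Finite G] (ψ : Gx p x →* G)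
          (G₀ : Subgroup G), RDr p x ψ G₀ → RDr p y (rs hle ψ) G₀) ∧
        ∃ ρ' : H' →* P', FinLevel ρ' ∧
          ∀ (γ : Ω ≃ₐ[ZMod p] Ω) (h : γ ∈ H') (h₁ : γ ∈ H), f (ρ' ⟨γ, h⟩) = ρ ⟨γ, h₁⟩ := by
  intro n
  induction n with
  | zero =>
    intro P' _ _ f hn hf hP'
    have := Nat.card_pos (α := P')
    omega
  | succ n ih =>
    intro P' _ _ f hn hf hP'
    by_cases hinj : Function.Injective f
    · let e : P' ≃* P := MulEquiv.ofBijective f ⟨hinj, hf⟩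
      have he : ∀ y : P, f (e.symm y) = y := fun y => e.apply_symm_apply y
      refine ⟨x, H, hx, (inf_eq_left.mpr hH).symm, ⟨le_rfl, fun G _ _ ψ _ h => h⟩,
        e.symm.toMonoidHom.comp ρ, ?_, ?_⟩
      · obtain ⟨S, hS⟩ := hρ
        refine ⟨S, ?_⟩
        intro γ hγ
        show e.symm (ρ γ) = 1
        rw [hS γ hγ, map_one]
      · intro γ h h₁
        exact he _
    · have hker : f.ker ≠ ⊥ := fun h => hinj ((MonoidHom.ker_eq_bot_iff f).mp h)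
      obtain ⟨z, hz, hcen, hord⟩ := MP7Z.EPL.ChainAux.exists_central ℓ hℓ P' hP' f.ker hker
      let Z : Subgroup P' := Subgroup.zpowers z
      have hZc : ∀ a ∈ Z, ∀ b : P', a * b = b * a := by
        intro a ha b
        obtain ⟨k, rfl⟩ := Subgroup.mem_zpowers_iff.mp ha
        exact (Commute.zpow_left (show Commute z b from hcen b) k)
      have hZn : Z.Normal := by
        refine ⟨fun a ha g => ?_⟩
        rw [← hZc a ha g, mul_assoc, mul_inv_cancel, mul_one]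
        exact ha
      have hZle : Z ≤ f.ker := by
        rw [Subgroup.zpowers_le]
        exact hz
      have hZcard : Nat.card Z = ℓ := by
        rw [Nat.card_zpowers, hord]
      let f₁ : P' ⧸ Z →* P := QuotientGroup.lift Z f hZle
      have hf₁ : Function.Surjective f₁ := by
        intro y
        obtain ⟨w, hw⟩ := hf y
        exact ⟨(w : P' ⧸ Z), hw⟩
      have hcard : Nat.card (P' ⧸ Z) ≤ n := by
        have h1 := Subgroup.card_eq_card_quotient_mul_card_subgroup Z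
        rw [hZcard] at h1
        have h2 := Nat.card_pos (α := P' ⧸ Z)
        have h3 := hℓ.two_le
        nlinarith
      obtain ⟨y₁, H₁, hy₁, hH₁, ⟨hle₁, hRD₁⟩, ρ₁, hN₁, hρ₁⟩ :=
        ih (P' ⧸ Z) f₁ hcard hf₁ (hP'.to_quotient Z)
      have hk : (QuotientGroup.mk' Z).ker = Z := QuotientGroup.ker_mk' Z
      have hO₁ : Opn p y₁ H₁ := by
        obtain ⟨S, hS⟩ := hO
        refine ⟨S, fun γ hγ h => ?_⟩
        rw [hH₁]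
        exact ⟨hS γ (hle₁ hγ) h, hγ⟩
      have hle' : H₁ ≤ Gx p y₁ := by
        rw [hH₁]
        exact inf_le_right
      have hζ₁ : ∀ ζ : Ω, ζ ^ ℓ = 1 → ∀ γ ∈ H₁, γ ζ = ζ := by
        intro ζ hz γ hγ
        rw [hH₁] at hγ
        exact hζ ζ hz γ hγ.1
      obtain ⟨w, hw, hcsw⟩ := h1 p ℓ hℓ hp Ω y₁ hy₁ H₁ hle' hO₁ hζ₁ (P' ⧸ Z) ρ₁
        (hP'.to_quotient Z) hN₁ P' (QuotientGroup.mk' Z)
          (QuotientGroup.mk'_surjective Z) (by rw [hk]; exact hZc) (by rw [hk]; exact hZcard)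
      obtain ⟨y, hy, hys, hle, hRD⟩ := h2 p Ω y₁ hy₁ w hw
      obtain ⟨ρ', hN', hρ'⟩ := hcsw y hy hys hle
      refine ⟨y, H₁ ⊓ Gx p y, hys, ?_, ⟨hle.trans hle₁, ?_⟩, ρ', hN', ?_⟩
      · rw [hH₁]
        ext γ
        simp only [Subgroup.mem_inf]
        constructor
        · rintro ⟨⟨h1, _⟩, h3⟩
          exact ⟨h1, h3⟩
        · rintro ⟨h1, h3⟩
          exact ⟨⟨h1, hle h3⟩, h3⟩
      · intro G _ _ ψ G₀ hψ
        exact hRD G (rs hle₁ ψ) G₀ (hRD₁ G ψ G₀ hψ)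
      · intro γ h h₁
        have h2 := hρ' γ h
        have h3 := hρ₁ γ h.1 h₁
        rw [← h3, ← h2]
        rfl


theorem weak (h1 : LStmtCSW) (h2 : MP7Z.EPL.GasStmt) (h3 : MP7Z.EPL.IdxStmt)
    (h4 : MP7Z.EPL.StabSStmt) : WeakWr := by
  classical
  intro p hp Ω _ _ x G _ _ ψ G₀ hψ E _ _ f hf ℓ hℓ hℓp hfℓ hfc
  have hℓF : Fact ℓ.Prime := ⟨hℓ⟩
  obtain ⟨P⟩ : Nonempty (Sylow ℓ G) := inferInstance
  have hPp : IsPGroup ℓ (P : Subgroup G) := P.2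
  let H : Subgroup (Ω ≃ₐ[ZMod p] Ω) := Hs x ψ (P : Subgroup G) ℓ
  let ρ : H →* (P : Subgroup G) := rh x ψ (P : Subgroup G) ℓ
  obtain ⟨Sψ, hSψ⟩ := hψ.fin
  obtain ⟨Sμ, hSμ⟩ := exists_mu (Ω := Ω) hℓ.pos
  have hHle : H ≤ Gx p x := fun γ h => h.choose
  have hSH : ∀ γ ∈ Gx p x, (∀ s ∈ Sψ ∪ Sμ, γ s = s) → γ ∈ H := by
    intro γ hγ hs
    refine ⟨hγ, ?_, fun ζ hζ => hs ζ (Finset.mem_union_right _ (hSμ ζ hζ))⟩
    rw [hSψ ⟨γ, hγ⟩ fun s h => hs s (Finset.mem_union_left _ h)]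
    exact one_mem _
  have hopn : Opn p x H := ⟨Sψ ∪ Sμ, hSH⟩
  have hmu : ∀ ζ : Ω, ζ ^ ℓ = 1 → ∀ γ ∈ H, γ ζ = ζ := fun ζ hζ γ hγ => hγ.choose_spec.2 ζ hζ
  have hρfin : FinLevel ρ := ⟨Sψ, fun γ hs => Subtype.ext (hSψ _ hs)⟩
  -- the preimage of the Sylow subgroup
  let P' : Subgroup E := (P : Subgroup G).comap f
  let fP : P' →* (P : Subgroup G) := f.subgroupComap (P : Subgroup G)
  have hfPs : Function.Surjective fP := f.subgroupComap_surjective_of_surjective _ hf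
  have hP'p : IsPGroup ℓ P' := by
    intro e
    obtain ⟨k, hk⟩ := hPp ⟨f (e : E), e.2⟩
    refine ⟨k + 1, Subtype.ext ?_⟩
    rw [Subgroup.coe_pow, pow_succ, pow_mul]
    apply hfℓ
    rw [MonoidHom.mem_ker, map_pow]
    exact congrArg Subtype.val hk
  obtain ⟨y, H₁, hst₁, hH₁, ⟨hle, hgood⟩, ρ₁, hfin₁, hρ₁⟩ :=
    chain h1 k2BaseWr p ℓ hℓ hℓp Ω x hψ.stage H hHle hopn hmu (P : Subgroup G) ρ hρfin
      (Nat.card P') P' fP le_rfl hfPs hP'p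
  let ψ₀ : Gx p y →* G := rs hle ψ
  have hg₀ : RDr p y ψ₀ G₀ := hgood G ψ G₀ hψ
  have hψ₀s : Function.Surjective ψ₀ := hg₀.surj
  have hψ₀ : ∀ (γ : Ω ≃ₐ[ZMod p] Ω) (h' : γ ∈ Gx p y) (h : γ ∈ Gx p x),
      ψ₀ ⟨γ, h'⟩ = ψ ⟨γ, h⟩ := fun _ _ _ => rfl
  let H₂ : Subgroup (Gx p y) := H₁.subgroupOf (Gx p y)
  have hmem : ∀ γ : Gx p y, γ ∈ H₂ ↔ ψ₀ γ ∈ (P : Subgroup G) ∧
      ∀ ζ : Ω, ζ ^ ℓ = 1 → (γ : Ω ≃ₐ[ZMod p] Ω) ζ = ζ := by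
    intro γ
    rw [Subgroup.mem_subgroupOf, hH₁]
    constructor
    · rintro ⟨⟨_, h, h'⟩, -⟩
      exact ⟨h, h'⟩
    · rintro ⟨h, h'⟩
      exact ⟨⟨hle γ.2, h, h'⟩, γ.2⟩
  obtain ⟨hfin, hcopH⟩ := h3 p Ω y hst₁ ℓ hℓF hℓp G ψ₀ hψ₀s P H₂ hmem
  let ι : H₂ →* H₁ :=
    { toFun := fun γ => ⟨((γ : Gx p y) : Ω ≃ₐ[ZMod p] Ω), γ.2⟩
      map_one' := rfl
      map_mul' := fun _ _ => rfl }
  let ρ₂ : H₂ →* E := P'.subtype.comp (ρ₁.comp ι)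
  have hρ₂ : ∀ h : H₂, f (ρ₂ h) = ψ₀ h := by
    intro h
    have hm : ((h : Gx p y) : Ω ≃ₐ[ZMod p] Ω) ∈ H₁ := h.2
    have hm' : ((h : Gx p y) : Ω ≃ₐ[ZMod p] Ω) ∈ H := by
      rw [hH₁] at hm
      exact hm.1
    exact congrArg Subtype.val (hρ₁ _ hm hm')
  obtain ⟨ψ', hψ'f, hψ'w⟩ :=
    h2 (Gx p y) E G H₂ ℓ hcopH f hfℓ hfc ψ₀ (fun γ => hf _) ρ₂ hρ₂
  have hρ₂1 : ∀ (γ : Gx p y) (h : γ ∈ H₂), ρ₁ ⟨(γ : Ω ≃ₐ[ZMod p] Ω), h⟩ = 1 →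
      ρ₂ ⟨γ, h⟩ = 1 := by
    intro γ h h'
    have h6 : ρ₂ ⟨γ, h⟩ = ((ρ₁ ⟨(γ : Ω ≃ₐ[ZMod p] Ω), h⟩ : P') : E) := rfl
    rw [h6, h']
    rfl
  refine ⟨y, hle, hg₀, ψ', ?_, fun γ h' h => by rw [hψ'f, hψ₀ γ h' h]⟩
  -- finite level
  obtain ⟨Sf, hSf⟩ := hfin₁
  apply fin_lift h4 hst₁ ((Sψ ∪ Sμ) ∪ Sf)
  intro w hw
  apply hψ'w
  intro g
  have h6 : ((g⁻¹ * w * g : Gx p y) : Ω ≃ₐ[ZMod p] Ω) ∈ H₁ := by
    rw [hH₁]
    exact ⟨hSH _ (hle (g⁻¹ * w * g).2) fun s hs => hw g s (Finset.mem_union_left _ hs),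
      (g⁻¹ * w * g).2⟩
  exact ⟨h6, hρ₂1 _ _ (hSf _ fun s hs => hw g s (Finset.mem_union_right _ hs))⟩

end Rel

/-- **(III.2)**, relative version. -/
theorem weakWr : WeakWr := Rel.weak aCSW gasStmt idxStmt stabSStmt

end MP7K
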