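import Pool.Agent.Lib.MP_7f581e_Z.LieG.TorOW

/-!
# C36: surjectivity of the Lang torsor homomorphism, for surjective `ψ`

Copies of the proofs of `Lie/TorO.lean` and `LieG/TorOW.lean`.
-/

set_option autoImplicit false

namespace MP7K

open MP7Z TensorProduct MP7fS

open TorAux TorOAux in
/-- `Ψ` is onto if `ψ` is. -/
theorem torS (h1 : CongStmt) (h2 : CongUStmt) (h3 : IntStmt) (h4 : CloStmt)
    (p : ℕ) [Fact p.Prime] (B : Type) [Ring B] [Finite B] [Algebra (ZMod p) B]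
    (𝒢 : LangGp p B) (Q : Type) [Group Q] [Finite Q] (ρ : Q →* (B ≃+* B)) (hρ : 𝒢.Stable ρ)
    (Ω : Type) [Field Ω] [Algebra (ZMod p) Ω] [CharP Ω p] [CharP (Cst p Ω) p] (x : Ω)
    (ψ : Gx p x →* Q) (g y : (Ω ⊗[ZMod p] B)ˣ) (Ψ : Gx p x →* 𝒢.pts ⋊[𝒢.act ρ hρ] Q)
    (hst : IsStage p x) (hreg : Function.Surjective ψ)
    (hy : y ∈ 𝒢.H Ω) (hyi : IntX x (y : Ω ⊗[ZMod p] B))
    (hyi' : IntX x ((y⁻¹ : (Ω ⊗[ZMod p] B)ˣ) : Ω ⊗[ZMod p] B)) (hfy : fru 1 Ω y = g * y)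
    (hΨr : ∀ γ, (Ψ γ).right = ψ γ)
    (hΨ : ∀ γ : Gx p x, tu ((γ : Ω ≃ₐ[ZMod p] Ω) : Ω →+* Ω) (ρ (ψ γ) : B →+* B) y =
          y * cstu Ω ((Ψ γ).left : Bˣ))
    (hcl : ∀ h ∈ 𝒢.pts, ∃ V : ValuationSubring Ω, V ≠ ⊤ ∧ x ∈ V ∧ ∃ γ : Gx p x,
          (γ : Ω ≃ₐ[ZMod p] Ω) ∈ Dec p V ∧ ψ γ = 1 ∧ ∃ d : ℕ, 0 < d ∧
          (∀ c ∈ Cst p Ω, (γ : Ω ≃ₐ[ZMod p] Ω) c = c ^ (p ^ d)) ∧
          ∃ z ∈ 𝒢.H (Cst p Ω), fru d (Cst p Ω) z = z * cstu (Cst p Ω) h ∧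
            Cong V (g : Ω ⊗[ZMod p] B)
              ((fru 1 (Cst p Ω) z * z⁻¹ : (Cst p Ω ⊗[ZMod p] B)ˣ) : Cst p Ω ⊗[ZMod p] B)) :
    Function.Surjective Ψ := by
  haveI : IsSepClosed Ω := hst.sepClosed
  -- left components, for elements of `ker ψ`
  have hleft : ∀ γ δ : Gx p x, ψ γ = 1 → (Ψ (γ * δ)).left = (Ψ γ).left * (Ψ δ).left := by
    intro γ δ hγ
    rw [map_mul, SemidirectProduct.mul_left, hΨr, hγ, map_one, MulAut.one_apply]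
  let κ : ψ.ker →* 𝒢.pts := MonoidHom.mk' (fun γ => (Ψ γ).left) (fun γ δ => hleft γ δ γ.2)
  have hκ : ∀ γ, κ γ = (Ψ γ).left := fun _ => rfl
  -- every conjugacy class
  have hconj : ∀ h : 𝒢.pts, ∃ k : 𝒢.pts, k⁻¹ * h * k ∈ κ.range := by
    intro h
    obtain ⟨V, hV, hxV, γ, hγV, hψγ, d, hd, hγd, z, hz, hfz, hgz⟩ := hcl h h.2
    obtain ⟨c1, c2, c3, c4, c5, c6, c7, -⟩ := h1 p B Ω x hst V hV
    obtain ⟨-, -, -, -, i5, -⟩ := h3 p B Ω x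
    obtain ⟨u, hu⟩ := h2 p B Ω x hst V hV y (i5 V hxV _ hyi) (i5 V hxV _ hyi')
    have huH : u ∈ 𝒢.H (Cst p Ω) := h4 p B 𝒢 Ω x hst V hV y u hy (i5 V hxV _ hyi)
      (i5 V hxV _ hyi') hu
    have e1 : fru 1 (Cst p Ω) u = fru 1 (Cst p Ω) z * z⁻¹ * u := by
      apply Units.ext
      refine c4 _ _ _ (c6 1 y u hu) ?_
      rw [hfy]
      exact c1 _ _ _ _ hgz hu
    obtain ⟨b, hb⟩ := exists_cstu (p := p) (z⁻¹ * u) (by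
      rw [map_mul, map_inv, e1]
      group)
    have hu' : u = z * cstu (Cst p Ω) b := by rw [← hb, mul_inv_cancel_left]
    have hbp : b ∈ 𝒢.pts := by
      change cstu (ZMod p) b ∈ 𝒢.H (ZMod p)
      apply 𝒢.inj (ZMod p) (Cst p Ω) (algebraMap (ZMod p) (Cst p Ω))
        (algebraMap (ZMod p) (Cst p Ω)).injective
      rw [tu_cstu_id, ← hb]
      exact mul_mem (inv_mem hz) huH
    have e2 : tu (cstAut (γ : Ω ≃ₐ[ZMod p] Ω)) (RingHom.id B) u =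
        u * cstu (Cst p Ω) ((Ψ γ).left : Bˣ) := by
      apply Units.ext
      have e3 := c5 γ hγV (RingHom.id B) _ _ hu
      have e4 := hΨ γ
      rw [hψγ, map_one] at e4
      have e5 := congrArg Units.val e4
      have e6 : tmap (p := p) ((γ : Ω ≃ₐ[ZMod p] Ω) : Ω →+* Ω) (RingHom.id B)
          (y : Ω ⊗[ZMod p] B) = (y : Ω ⊗[ZMod p] B) * ((1 : Ω) ⊗ₜ (((Ψ γ).left : Bˣ) : B)) := e5
      rw [e6] at e3
      exact c4 _ _ _ e3 (c1 _ _ _ _ hu (c3 _))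
    have e3 : tu (cstAut (γ : Ω ≃ₐ[ZMod p] Ω)) (RingHom.id B) u = fru d (Cst p Ω) u := by
      have e4 : cstAut (γ : Ω ≃ₐ[ZMod p] Ω) = iterateFrobenius (Cst p Ω) p d := by
        ext c
        rw [coe_cstAut, iterateFrobenius_def, hγd _ c.2]
        rfl
      rw [e4]
      rfl
    have e4 : (Ψ γ).left = ⟨b, hbp⟩⁻¹ * h * ⟨b, hbp⟩ := by
      apply Subtype.ext
      apply cstu_inj (p := p) (R := Cst p Ω)
      have e5 : fru d (Cst p Ω) (cstu (Cst p Ω) b) = cstu (Cst p Ω) b := tu_cstu_id _ _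
      have e6 := e2
      rw [e3, hu', map_mul, hfz, e5, mul_assoc, mul_assoc] at e6
      have e7 := mul_left_cancel e6
      change cstu (Cst p Ω) ((Ψ γ).left : Bˣ) = cstu (Cst p Ω) (b⁻¹ * (h : Bˣ) * b)
      rw [map_mul, map_mul, map_inv, mul_assoc, e7, inv_mul_cancel_left]
    exact ⟨⟨b, hbp⟩, ⟨⟨γ, hψγ⟩, e4⟩⟩
  haveI : Finite 𝒢.pts := inferInstance
  have htop : κ.range = ⊤ := jordan _ hconj
  intro e
  obtain ⟨γ, hγe⟩ := hreg e.right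
  have h5 : e.left * (Ψ γ).left⁻¹ ∈ κ.range := by rw [htop]; trivial
  obtain ⟨γ₁, hγ₁'⟩ := h5
  refine ⟨γ₁ * γ, ?_⟩
  refine SemidirectProduct.ext ?_ ?_
  · rw [hleft _ _ γ₁.2, ← hκ, hγ₁', inv_mul_cancel_right]
  · rw [hΨr, map_mul, hγe]
    have h6 : ψ (γ₁ : Gx p x) = 1 := γ₁.2
    rw [h6, one_mul]

open LG MP7fU in
open TorOAux in
/-- The same for Lang torsors of endomorphisms. -/
theorem torSW (h1 : CongStmt) (h2 : CongUStmt) (h3 : IntStmt) (h4 : CloWStmt)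
    (p : ℕ) [Fact p.Prime] (B : Type) [Ring B] [Finite B] [Algebra (ZMod p) B]
    (𝒢 : LangGp p B) (Φ : 𝒢.End) (e0 : ℕ) (hroot : Φ.Root e0 1)
    (Q : Type) [Group Q] [Finite Q] (ρ : Q →* (B ≃+* B)) (hρ : 𝒢.Stable ρ) (hc : Φ.Comm ρ)
    (Ω : Type) [Field Ω] [Algebra (ZMod p) Ω] [CharP Ω p] [CharP (Cst p Ω) p] (x : Ω)
    (ψ : Gx p x →* Q) (g y : (Ω ⊗[ZMod p] B)ˣ) (Ψ : Gx p x →* Φ.pts ⋊[Φ.act ρ hρ hc] Q)
    (hst : IsStage p x) (hreg : Function.Surjective ψ)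
    (hy : y ∈ 𝒢.H Ω) (hyi : IntX x (y : Ω ⊗[ZMod p] B))
    (hyi' : IntX x ((y⁻¹ : (Ω ⊗[ZMod p] B)ˣ) : Ω ⊗[ZMod p] B)) (hfy : Φ.φ Ω y = g * y)
    (hΨr : ∀ γ, (Ψ γ).right = ψ γ)
    (hΨ : ∀ γ : Gx p x, tu ((γ : Ω ≃ₐ[ZMod p] Ω) : Ω →+* Ω) (ρ (ψ γ) : B →+* B) y =
          y * cstu Ω ((Ψ γ).left : Bˣ))
    (hcl : ∀ h ∈ Φ.pts, ∃ V : ValuationSubring Ω, V ≠ ⊤ ∧ x ∈ V ∧ ∃ γ : Gx p x,
          (γ : Ω ≃ₐ[ZMod p] Ω) ∈ Dec p V ∧ ψ γ = 1 ∧ ∃ d : ℕ, 0 < d ∧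
          (∀ c ∈ Cst p Ω, (γ : Ω ≃ₐ[ZMod p] Ω) c = c ^ (p ^ d)) ∧
          ∃ z ∈ 𝒢.H (Cst p Ω), fru d (Cst p Ω) z = z * cstu (Cst p Ω) h ∧
            Cong V (g : Ω ⊗[ZMod p] B)
              ((Φ.φ (Cst p Ω) z * z⁻¹ : (Cst p Ω ⊗[ZMod p] B)ˣ) : Cst p Ω ⊗[ZMod p] B)) :
    Function.Surjective Ψ := by
  have : IsSepClosed Ω := hst.sepClosed
  -- left components, for elements of `ker ψ`
  have hleft : ∀ γ δ : Gx p x, ψ γ = 1 → (Ψ (γ * δ)).left = (Ψ γ).left * (Ψ δ).left := by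
    intro γ δ hγ
    rw [map_mul, SemidirectProduct.mul_left, hΨr, hγ, map_one, MulAut.one_apply]
  let κ : ψ.ker →* Φ.pts := MonoidHom.mk' (fun γ => (Ψ γ).left) (fun γ δ => hleft γ δ γ.2)
  have hκ : ∀ γ, κ γ = (Ψ γ).left := fun _ => rfl
  -- every conjugacy class
  have hconj : ∀ h : Φ.pts, ∃ k : Φ.pts, k⁻¹ * h * k ∈ κ.range := by
    intro h
    obtain ⟨V, hV, hxV, γ, hγV, hψγ, d, hd, hγd, z, hz, hfz, hgz⟩ := hcl h h.2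
    obtain ⟨c1, c2, c3, c4, c5, c6, c7, -⟩ := h1 p B Ω x hst V hV
    obtain ⟨-, -, -, -, i5, -⟩ := h3 p B Ω x
    obtain ⟨u, hu⟩ := h2 p B Ω x hst V hV y (i5 V hxV _ hyi) (i5 V hxV _ hyi')
    obtain ⟨huH, huΦ⟩ := h4 p B 𝒢 Φ Ω x hst V hV y u hy (i5 V hxV _ hyi)
      (i5 V hxV _ hyi') hu
    have e1 : Φ.φ (Cst p Ω) u = Φ.φ (Cst p Ω) z * z⁻¹ * u := by
      apply Units.ext
      refine c4 _ _ _ huΦ ?_
      rw [hfy]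
      exact c1 _ _ _ _ hgz hu
    have hbH : z⁻¹ * u ∈ 𝒢.H (Cst p Ω) := mul_mem (inv_mem hz) huH
    have hbΦ : Φ.φ (Cst p Ω) (z⁻¹ * u) = z⁻¹ * u := by
      rw [Φ.mul _ _ (inv_mem hz) _ huH, Φ.map_inv _ hz, e1]
      group
    obtain ⟨b, hb⟩ := exists_cstu (p := p) (x := z⁻¹ * u) (by
      rw [← hroot (Cst p Ω) _ hbH]
      exact Function.iterate_fixed hbΦ e0)
    have hu' : u = z * cstu (Cst p Ω) b := by rw [← hb, mul_inv_cancel_left]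
    have hbp : b ∈ Φ.pts := by
      rw [mem_pts_iff Φ (K := Cst p Ω), ← hb]
      exact ⟨hbH, hbΦ⟩
    have e2 : tu (cstAut (γ : Ω ≃ₐ[ZMod p] Ω)) (RingHom.id B) u =
        u * cstu (Cst p Ω) ((Ψ γ).left : Bˣ) := by
      apply Units.ext
      have e3 := c5 γ hγV (RingHom.id B) _ _ hu
      have e4 := hΨ γ
      rw [hψγ, map_one] at e4
      have e5 := congrArg Units.val e4
      have e6 : tmap (p := p) ((γ : Ω ≃ₐ[ZMod p] Ω) : Ω →+* Ω) (RingHom.id B)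
          (y : Ω ⊗[ZMod p] B) = (y : Ω ⊗[ZMod p] B) * ((1 : Ω) ⊗ₜ (((Ψ γ).left : Bˣ) : B)) := e5
      rw [e6] at e3
      exact c4 _ _ _ e3 (c1 _ _ _ _ hu (c3 _))
    have e3 : tu (cstAut (γ : Ω ≃ₐ[ZMod p] Ω)) (RingHom.id B) u = fru d (Cst p Ω) u := by
      have e4 : cstAut (γ : Ω ≃ₐ[ZMod p] Ω) = iterateFrobenius (Cst p Ω) p d := by
        ext c
        rw [coe_cstAut, iterateFrobenius_def, hγd _ c.2]
        rfl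
      rw [e4]
      rfl
    have e4 : (Ψ γ).left = ⟨b, hbp⟩⁻¹ * h * ⟨b, hbp⟩ := by
      apply Subtype.ext
      apply cstu_injective (p := p) (R := Cst p Ω)
      have e5 : fru d (Cst p Ω) (cstu (Cst p Ω) b) = cstu (Cst p Ω) b := fru_cstu d b
      have e6 := e2
      rw [e3, hu', map_mul, hfz, e5, mul_assoc, mul_assoc] at e6
      have e7 := mul_left_cancel e6
      change cstu (Cst p Ω) ((Ψ γ).left : Bˣ) = cstu (Cst p Ω) (b⁻¹ * (h : Bˣ) * b)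
      rw [map_mul, map_mul, map_inv, mul_assoc, e7, inv_mul_cancel_left]
    exact ⟨⟨b, hbp⟩, ⟨⟨γ, hψγ⟩, e4⟩⟩
  have : Finite Φ.pts := inferInstance
  have htop : κ.range = ⊤ := jordan _ hconj
  intro e
  obtain ⟨γ, hγe⟩ := hreg e.right
  have h5 : e.left * (Ψ γ).left⁻¹ ∈ κ.range := by rw [htop]; trivial
  obtain ⟨γ₁, hγ₁'⟩ := h5
  refine ⟨γ₁ * γ, ?_⟩
  refine SemidirectProduct.ext ?_ ?_
  · rw [hleft _ _ γ₁.2, ← hκ, hγ₁', inv_mul_cancel_right]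
  · rw [hΨr, map_mul, hγe]
    have h6 : ψ (γ₁ : Gx p x) = 1 := γ₁.2
    rw [h6, one_mul]

end MP7K
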