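import Pool.Agent.Lib.MP_7f581e_K.R.Lift
import Pool.Agent.Lib.MP_7f581e_K.R.Tor
import Pool.Agent.Lib.MP_7f581e_Z.Types.AllLie
import Pool.Agent.Lib.MP_7f581e_Z.Ort.Main
import Pool.Agent.Lib.MP_7f581e_Z.LieG.Main
import Pool.Agent.Lib.MP_7f581e_Z.LieG.Bridge

/-!
# C36: step Lie, lifting form
-/

set_option autoImplicit false
set_option linter.unusedSectionVars false

namespace MP7K

open MP7Z

/-- The step for kernels which are powers of a group in the class `𝒮`, in lifting form. -/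
def NStepL (p : ℕ) [Fact p.Prime] (𝒮 : (S : Type) → [Group S] → Prop) : Prop :=
  ∀ (G : Type) [Group G] [Finite G] (E : Type) [Group E] [Finite E] (f : E →* G),
    Function.Surjective f →
    ∀ (S : Type) [Group S] [Finite S] (κ : Type) [Finite κ], 𝒮 S → Nonempty (f.ker ≃* (κ → S)) →
    LiftW p f

/-- The step for solvable kernels, in lifting form. -/
def SolvL (p : ℕ) [Fact p.Prime] : Prop :=
  ∀ (E G : Type) [Group E] [Finite E] [Group G] [Finite G] (f : E →* G),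
    Function.Surjective f → Group.IsSolvable f.ker → LiftW p f

/-- **The Lang torsor theorem** for surjective homomorphisms. -/
def L3L : Prop :=
  ∀ (p : ℕ) [Fact p.Prime] (B : Type) [Ring B] [Finite B] [Algebra (ZMod p) B]
    (𝒢 : LangGp p B) (Q : Type) [Group Q] [Fintype Q] (ρ : Q →* (B ≃+* B))
    (hρ : 𝒢.Stable ρ) (m₀ : ℕ) (ι : Type) (Z : ι → Submodule (ZMod p) B), 0 < m₀ →
    𝒢.Lang1 → 𝒢.LangM m₀ → 𝒢.Gen m₀ Z → (∀ i, ∀ q : Q, ∀ b ∈ Z i, ρ q b ∈ Z i) →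
    (∀ i, 𝒢.Par ρ (Z i)) →
    ∀ (Ω : Type) [Field Ω] [Algebra (ZMod p) Ω] (x : Ω) (ψ : Gx p x →* Q), IsStage p x →
      FinLevel ψ → Function.Surjective ψ →
      ∃ Ψ : Gx p x →* 𝒢.pts ⋊[𝒢.act ρ hρ] Q, FinLevel Ψ ∧ Function.Surjective Ψ ∧
        ∀ γ, (Ψ γ).right = ψ γ

theorem lie_l3L : L3L := by
  intro p _ B _ _ _ 𝒢 Q _ _ ρ hρ m₀ ι Z hm₀ hL1 hLM hGen hZ hPar Ω _ _ x ψ hst hfin hsurj
  have : CharP Ω p := charP_of_injective_algebraMap (algebraMap (ZMod p) Ω).injective p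
  have : CharP (Cst p Ω) p :=
    charP_of_injective_algebraMap (algebraMap (ZMod p) (Cst p Ω)).injective p
  have : IsSepClosed Ω := hst.sepClosed
  obtain ⟨g, hgH, hinv, hgi, hgi', hpl⟩ := lie_gel p B 𝒢 Q ρ m₀ ι Z hm₀ hLM hGen hZ hPar Ω x
    hst ψ hfin hsurj
  obtain ⟨y, hyH, hy⟩ := hL1 Ω g hgH
  obtain ⟨hyi, hyi'⟩ := (lie_int p B Ω x).2.2.2.2.2 g y hgi hgi' hy
  obtain ⟨Ψ, hΨf, hΨr, hΨy⟩ := tTor p B 𝒢 Q ρ hρ Ω x ψ g y hfin hinv hyH hy
  exact ⟨Ψ, hΨf, torS lie_cong (tCongU lie_cong) lie_int (tClo br_res) p B 𝒢 Q ρ hρ Ω x ψ g y Ψ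
    hst hsurj hyH hyi hyi' hy hΨr hΨy hpl, hΨr⟩

section

open MP7fW MP7fY

variable {p : ℕ} [Fact p.Prime] {H B A : Type} [Group H] [Ring B] [Finite B]
  [Algebra (ZMod p) B] [Group A] {inc : H →* B} {hinj : Function.Injective inc}
  {r : A →* RingAut B} {hex : ∀ x h, ∃ h', inc h' = r x (inc h)} {D : Subgroup A}

/-- **Step Lie from a type**, lifting form. -/
theorem lift_of_type (hL3 : L3L) (hS : SolvL p) (hT : TypeD inc hinj r hex D)
    (hG : LangOf p inc r D) :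
    NStepL p (fun S [Group S] => Nonempty (S ≃* H ⧸ Subgroup.center H)) := by
  intro G _ _ E _ _ f hf S _ _ κ _ hSS hθ₀ Ω _ _ x₁ hx₁ ψ₁ hψ₁f hψ₁s
  obtain ⟨eS⟩ := hSS
  obtain ⟨θ₀⟩ := hθ₀
  have hsim := hT.simple
  have hnt : Nontrivial (H ⧸ Subgroup.center H) := hsim.toNontrivial
  let θ : f.ker ≃* (κ → H ⧸ Subgroup.center H) := θ₀.trans (MulEquiv.piCongrRight fun _ => eS)
  let c := cQ inc hinj r hex
  have hexQ : ∀ e : E, ∃ (π : Equiv.Perm κ) (x : κ → A), Wr c (Psi f.ker θ e) π x :=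
    fun e => exists_wrS hT.sur hT.cent (Psi f.ker θ e)
  have huni : ∀ x y : A, (∀ t, c x t = c y t) → x = y := cQ_injective hT.fix
  -- the subgroup of the standard elements
  let E₂ : Subgroup E :=
    { carrier := {e | ∃ (π : Equiv.Perm κ) (x : κ → A), Wr c (Psi f.ker θ e) π x ∧
        ∀ k, x k ∈ D}
      one_mem' := ⟨1, fun _ => 1, by
        rw [map_one]
        exact Wr.one, fun _ => D.one_mem⟩
      mul_mem' := by
        rintro e e' ⟨π, x, h, hx⟩ ⟨π', x', h', hx'⟩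
        refine ⟨π * π', fun k => x (π' k) * x' k, ?_, fun k => D.mul_mem (hx _) (hx' _)⟩
        rw [map_mul]
        exact h.mul h'
      inv_mem' := by
        rintro e ⟨π, x, h, hx⟩
        refine ⟨π⁻¹, fun k => (x (π⁻¹ k))⁻¹, ?_, fun k => D.inv_mem (hx _)⟩
        rw [map_inv]
        exact h.inv }
  have hE₂ : ∀ e, e ∈ E₂ ↔ ∃ (π : Equiv.Perm κ) (x : κ → A), Wr c (Psi f.ker θ e) π x ∧
      ∀ k, x k ∈ D := fun e => Iff.rfl
  have hsup : ∀ e : E, ∃ y, nn f.ker θ y * e ∈ E₂ := by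
    intro e
    obtain ⟨π, x, h⟩ := hexQ e
    choose s y hyD hy using fun k => hT.std (x k)
    refine ⟨fun i => s (π.symm i), π, y, ?_, hyD⟩
    intro z k
    rw [map_mul, MulAut.mul_apply, Psi_nn]
    change s (π.symm (π k)) * Psi f.ker θ e z (π k) * (s (π.symm (π k)))⁻¹ = _
    rw [h, Equiv.symm_apply_apply, ← hy]
  -- the kernel is solvable
  let f₂ : E₂ →* G := f.comp E₂.subtype
  have hf₂ : Function.Surjective f₂ := by
    intro g
    obtain ⟨e, rfl⟩ := hf g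
    obtain ⟨y, hy⟩ := hsup e
    refine ⟨⟨_, hy⟩, ?_⟩
    change f (nn f.ker θ y * e) = f e
    have h1 : f (nn f.ker θ y) = 1 := MonoidHom.mem_ker.1 (nn_mem f.ker θ y)
    rw [map_mul, h1, one_mul]
  have hsolv : Group.IsSolvable f₂.ker := by
    obtain ⟨T, hTs, hT'⟩ := hT.solv
    have hmem : ∀ e : f₂.ker, ((e : E₂) : E) ∈ f.ker := fun e => MonoidHom.mem_ker.1 e.2
    have key : ∀ (e : f₂.ker) (k : κ), θ ⟨((e : E₂) : E), hmem e⟩ k ∈ T := by
      intro e k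
      obtain ⟨π, x, h, hx⟩ := (hE₂ _).1 (e : E₂).2
      obtain ⟨s, hs⟩ := nn_surj f.ker θ (hmem e)
      have hse : θ ⟨((e : E₂) : E), hmem e⟩ = s := by
        apply nn_inj f.ker θ
        rw [hs]
        change ((θ.symm (θ ⟨((e : E₂) : E), hmem e⟩) : f.ker) : E) = _
        rw [MulEquiv.symm_apply_apply]
      rw [hse]
      rw [← hs] at h
      classical
      have h1 : ∀ (z : κ → H ⧸ Subgroup.center H) (k : κ),
          s (π k) * z (π k) * (s (π k))⁻¹ = c (x k) (z k) := by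
        intro z k
        have h2 := h z k
        rw [Psi_nn] at h2
        exact h2
      have hπ : ∀ k, π k = k := by
        intro k
        by_contra hne
        obtain ⟨t, ht⟩ := exists_ne (1 : H ⧸ Subgroup.center H)
        have h2 := h1 (Pi.mulSingle (π k) t) k
        rw [Pi.mulSingle_eq_same, Pi.mulSingle_eq_of_ne (Ne.symm hne), map_one] at h2
        apply ht
        rw [mul_inv_eq_one] at h2
        exact mul_eq_left.mp h2
      refine hT' _ ⟨x k, hx k, ?_⟩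
      intro t
      have h3 := h1 (fun _ => t) k
      rw [hπ k] at h3
      exact h3.symm
    let φ : κ → (f₂.ker →* T) := fun k =>
      { toFun := fun e => ⟨θ ⟨((e : E₂) : E), hmem e⟩ k, key e k⟩
        map_one' := by
          apply Subtype.ext
          change θ ⟨(((1 : f₂.ker) : E₂) : E), hmem 1⟩ k = 1
          have h1 : (⟨(((1 : f₂.ker) : E₂) : E), hmem 1⟩ : f.ker) = 1 := rfl
          rw [h1, map_one]
          rfl
        map_mul' := by
          intro a b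
          apply Subtype.ext
          change θ ⟨(((a * b : f₂.ker) : E₂) : E), hmem (a * b)⟩ k = _
          have h1 : (⟨(((a * b : f₂.ker) : E₂) : E), hmem (a * b)⟩ : f.ker) =
            ⟨((a : E₂) : E), hmem a⟩ * ⟨((b : E₂) : E), hmem b⟩ := rfl
          rw [h1, map_mul]
          rfl }
    refine solvable_of_homs hTs φ ?_
    intro e he
    have h1 : θ ⟨((e : E₂) : E), hmem e⟩ = 1 := by
      funext k
      exact congrArg Subtype.val (he k)
    have h2 : (⟨((e : E₂) : E), hmem e⟩ : f.ker) = 1 := by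
      apply θ.injective
      rw [h1, map_one]
    have h3 : ((e : E₂) : E) = 1 := congrArg (fun z : f.ker => (z : E)) h2
    exact Subtype.ext (Subtype.ext h3)
  -- the solution for the standard subgroup
  obtain ⟨y₁, hle, ψ₂, hy₁, hψ₂f, hψ₂s, hψ₂⟩ := hS E₂ G f₂ hf₂ hsolv Ω x₁ hx₁ ψ₁ hψ₁f hψ₁s
  -- the action
  obtain ⟨𝒢, hpts, hL1, hQ⟩ := hG κ
  let ρ : E₂ →* ((κ → B) ≃+* (κ → B)) :=
    (rhoQ (c := c) (Ψ := Psi f.ker θ) hexQ huni r).comp E₂.subtype
  have hform : ∀ (e : E₂) (b : κ → B) (k : κ),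
      ρ e b (pQ hexQ (e : E) k) = r (xQ hexQ (e : E) k) (b k) :=
    fun e b k => rhoQ_apply hexQ huni r (e : E) b k
  have hxD : ∀ (e : E₂) (k : κ), xQ hexQ (e : E) k ∈ D := by
    intro e k
    obtain ⟨π, x, h, hx⟩ := (hE₂ _).1 e.2
    have h1 := (wr_unique huni (wrQ hexQ (e : E)) h).2
    rw [h1]
    exact hx k
  have : Fintype E₂ := Fintype.ofFinite E₂
  obtain ⟨hst, m₀, ι, Z, hm₀, hLM, hGen, hZ, hPar⟩ := hQ E₂ ρ fun e =>
    ⟨pQ hexQ (e : E), xQ hexQ (e : E), hxD e, hform e⟩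
  obtain ⟨eb, heb⟩ := exists_hb hinj hpts
  obtain ⟨Ψ₃, hΨ₃f, hΨ₃s, hΨ₃⟩ := hL3 p (κ → B) 𝒢 E₂ ρ hst m₀ ι Z hm₀ hL1 hLM hGen hZ hPar Ω y₁
    ψ₂ hy₁ hψ₂f hψ₂s
  -- the homomorphism onto `E`
  let f₁ : 𝒢.pts →* E := (nn f.ker θ).comp ((mkk κ H).comp eb.toMonoidHom)
  have hact : ∀ (e : E₂) (b : 𝒢.pts), f₁ (𝒢.act ρ hst e b) = (e : E) * f₁ b * (e : E)⁻¹ := by
    intro e b
    change nn f.ker θ (mkk κ H (eb (𝒢.act ρ hst e b))) =
      (e : E) * nn f.ker θ (mkk κ H (eb b)) * (e : E)⁻¹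
    rw [← nn_psi]
    congr 1
    funext i
    obtain ⟨k, rfl⟩ := (pQ hexQ (e : E)).surjective i
    rw [wrQ hexQ (e : E) (mkk κ H (eb b)) k]
    symm
    apply cQ_mk'
    rw [heb, heb]
    exact hform e ((b : (κ → B)ˣ) : κ → B) k
  let F : 𝒢.pts ⋊[𝒢.act ρ hst] E₂ →* E := SemidirectProduct.lift f₁ E₂.subtype (by
    intro e
    ext b
    exact hact e b)
  have hF : Function.Surjective F := by
    intro e
    obtain ⟨y, hy⟩ := hsup e
    obtain ⟨h, hh⟩ := mkk_surj κ H y⁻¹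
    refine ⟨⟨eb.symm h, ⟨_, hy⟩⟩, ?_⟩
    change nn f.ker θ (mkk κ H (eb (eb.symm h))) * (nn f.ker θ y * e) = e
    rw [MulEquiv.apply_symm_apply, hh, map_inv, inv_mul_cancel_left]
  refine ⟨y₁, hle, F.comp Ψ₃, hy₁, FinLevel.postcomp hΨ₃f F, hF.comp hΨ₃s, fun γ => ?_⟩
  have h1 : F (Ψ₃ γ) = nn f.ker θ (mkk κ H (eb (Ψ₃ γ).left)) * ((Ψ₃ γ).right : E) := rfl
  have h2 : f (nn f.ker θ (mkk κ H (eb (Ψ₃ γ).left))) = 1 := MonoidHom.mem_ker.1 (nn_mem f.ker θ _)
  rw [MonoidHom.comp_apply, h1, map_mul, h2, one_mul, hΨ₃, ← hψ₂ γ]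
  rfl

end

section

open Matrix MP7fY MP7fW MP7fH MP7fE

open SUJ in
/-- **Step Lie for `SU_N(F)`** from the Lang groups. -/
theorem lift_SU (hL3 : L3L) {p : ℕ} [Fact p.Prime] (hS : SolvL p) {m N : ℕ} {F : Type}
    [Field F] [CharP F p] [Finite F] [Algebra (ZMod p) F] (hm : 0 < m)
    (hcard : Nat.card F = p ^ (2 * m)) (h3 : 3 ≤ N) (hq : N = 3 → 2 < p ^ m)
    [IsSimpleGroup (PSG (sF p m F) (Jm N F))]
    (hG : LangOf p (incJ (sF p m F) N)
      (AJ (s := sF p m F) (N := N) (sF_comm (p := p) (m := m))).subtype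
      (DJ (s := sF p m F) (N := N) (sF_comm (p := p) (m := m)))) :
    NStepL p (fun S [Group S] => Nonempty (S ≃* PSG (sF p m F) (Jm N F))) :=
  lift_of_type hL3 hS (typeD_SU (N := N) (sF p m F) (sF_sF (p := p) (m := m) hcard)
    (sF_ne' hm hcard) sF_comm h3 fun h => exists_t hm hcard (hq h)) hG

open SUJ in
/-- The same for the form with the identity matrix. -/
theorem lift_SU_one (hL3 : L3L) {p : ℕ} [Fact p.Prime] (hS : SolvL p) {m N : ℕ} {F : Type}
    [Field F] [CharP F p] [Finite F] [Algebra (ZMod p) F] (hm : 0 < m)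
    (hcard : Nat.card F = p ^ (2 * m)) (h3 : 3 ≤ N) (hq : N = 3 → 2 < p ^ m)
    [IsSimpleGroup (PSG (sF p m F) (1 : Matrix (Fin N) (Fin N) F))]
    (hG : LangOf p (incJ (sF p m F) N)
      (AJ (s := sF p m F) (N := N) (sF_comm (p := p) (m := m))).subtype
      (DJ (s := sF p m F) (N := N) (sF_comm (p := p) (m := m)))) :
    NStepL p (fun S [Group S] =>
      Nonempty (S ≃* PSG (sF p m F) (1 : Matrix (Fin N) (Fin N) F))) := by
  obtain ⟨P, hP⟩ := exists_PJ (F := F) hm hcard N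
  have : IsSimpleGroup (PSG (sF p m F) (Jm N F)) := (ptr hP).isSimpleGroup
  have h1 := lift_SU hL3 hS hm hcard h3 hq hG
  intro G _ _ E _ _ f hf S _ _ κ _ hSS hθ
  obtain ⟨e⟩ := hSS
  exact h1 G E f hf S κ ⟨e.trans (ptr hP).symm⟩ hθ

/-- **Step Lie for the classical groups.** -/
theorem lift_classical {p : ℕ} [Fact p.Prime] (hL3 : L3L) (hS : SolvL p)
    (hA : LangAll p) : NStepL p (fun S [Group S] => IsClassical p S) := by
  intro G _ _ E _ _ f hf S _ _ κ _ hSS hθ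
  obtain ⟨hsim, H, _, hH, ⟨eS⟩⟩ := hSS
  have hS' : IsSimpleGroup (H ⧸ Subgroup.center H) := MulEquiv.isSimpleGroup eS.symm
  obtain ⟨F, _, n, m, ⟨hF, hn, hq, ⟨e⟩⟩ | ⟨hF, hn, hp, ⟨e⟩⟩ |
    ⟨hF, hm, hn, hq, σ, hσ, ⟨e⟩⟩⟩ := hH
  · have := finite_of_card hF
    have := charP_of_card hF
    let _ : Algebra (ZMod p) F := ZMod.algebra F p
    rcases Nat.lt_or_ge 2 n with h3 | h3
    · exact lift_of_type hL3 hS (typeD_SLn (F := F) h3) (hA.sln F n h3) G E f hf S κ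
        ⟨eS.trans (centerQuot e)⟩ hθ
    · obtain rfl : n = 2 := le_antisymm h3 hn
      exact lift_of_type hL3 hS (typeD_SL2 (F := F) (by rw [hF]; exact hq rfl)) (hA.sl2 F)
        G E f hf S κ ⟨eS.trans (centerQuot e)⟩ hθ
  · have := finite_of_card hF
    have := charP_of_card hF
    let _ : Algebra (ZMod p) F := ZMod.algebra F p
    have e' : H ≃* MP7fP.Sp n F := e
    have h1 : IsSimpleGroup (MP7fP.PSp n F) := MulEquiv.isSimpleGroup (centerQuot e').symm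
    exact lift_of_type hL3 hS (typeD_Sp (F := F) (p := p) hn (two_zero hn hp)) (hA.sp F n hn)
      G E f hf S κ ⟨eS.trans (centerQuot e')⟩ hθ
  · have := finite_of_card hF
    have := charP_of_card hF
    let _ : Algebra (ZMod p) F := ZMod.algebra F p
    obtain rfl : σ = MP7fY.sF p m F := RingHom.ext fun x => (hσ x).trans
      (MP7fY.sF_apply x).symm
    have e' : H ≃* MP7fY.SG (MP7fY.sF p m F) (1 : Matrix (Fin n) (Fin n) F) := e.trans suEquiv
    have h1 : IsSimpleGroup (MP7fY.PSG (MP7fY.sF p m F) (1 : Matrix (Fin n) (Fin n) F)) :=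
      MulEquiv.isSimpleGroup (centerQuot e').symm
    exact lift_SU_one hL3 hS hm hF hn hq (hA.su F m n hm hF hn) G E f hf S κ
      ⟨eS.trans (centerQuot e')⟩ hθ

end

section

open MP7Z.Ort TensorProduct MP7fS Matrix

/-- **Step Lie for the orthogonal groups.** -/
theorem lift_ort {p : ℕ} [Fact p.Prime] (hL3 : L3L) (hS : SolvL p) (hxe : HxeStmt)
    (tyo : TyOStmt) (aut : OAutX) (lang : OLangStmt) (oms : OmSStmt) (cle : ClEStmt)
    (clo : ClOStmt) (an8 : An8Stmt) : NStepL p (fun S [Group S] => IsOrthogonal p S) := by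
  intro G _ _ E _ _ f hf S _ _ κ _ hSS hθ
  obtain ⟨F, _, _, _, s, D, h3, h8, hsim, he⟩ := exists_dat oms cle clo an8 hSS
  have hex := hxe p F (s + 2) D
  have hT := tyo p F s D hex hsim (aut p F (s + 2) D hex h3 h8 hsim)
  exact lift_of_type hL3 hS hT (lang p F (s + 1) D) G E f hf S κ he hθ

end

/-- **Step Lie for the classical groups.** -/
theorem nStepL_classical {p : ℕ} [Fact p.Prime] (hS : SolvL p) :
    NStepL p (fun S [Group S] => MP7fE.IsClassical p S) :=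
  lift_classical lie_l3L hS (langAll p)

/-- **Step Lie for the orthogonal groups.** -/
theorem nStepL_orthogonal {p : ℕ} [Fact p.Prime] (hS : SolvL p) :
    NStepL p (fun S [Group S] => IsOrthogonal p S) :=
  lift_ort lie_l3L hS Ort.aHxe Ort.aTyO Ort.aOAut Ort.aOLangX Ort.aOmS Ort.aClE Ort.aClO Ort.tAn8

end MP7K
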