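import Pool.Agent.Lib.MP_7f581e_K.R.Lie

/-!
# C36: step Lie for the simple groups of Lie type, lifting form
-/

set_option autoImplicit false
set_option linter.unusedSectionVars false

namespace MP7K

open MP7Z MP7Z.LG TensorProduct MP7fS MP7fU MP7Z.LG.LieGM

/-- The Lang torsor theorem for endomorphisms, for surjective homomorphisms. -/
def L3WL : Prop :=
  ∀ (p : ℕ) [Fact p.Prime] (B : Type) [Ring B] [Finite B] [Algebra (ZMod p) B]
    (𝒢 : LangGp p B) (Φ : 𝒢.End) (e : ℕ), Φ.Root e 1 → Lang Φ →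
    (∀ d, 0 < d → Lang (frEnd 𝒢 d)) →
    ∀ (Q : Type) [Group Q] [Fintype Q] (ρ : Q →* (B ≃+* B)) (hρ : 𝒢.Stable ρ)
    (hc : Φ.Comm ρ) (ι : Type) [Fintype ι] [DecidableEq ι]
    (P : (MvPolynomial ι (ZMod p) ⊗[ZMod p] B)ˣ) (β : Q →* Matrix ι ι (ZMod p)),
    Word 𝒢 ρ P β →
    ∀ (Ω : Type) [Field Ω] [Algebra (ZMod p) Ω] (x : Ω) (ψ : Gx p x →* Q), IsStage p x →
      FinLevel ψ → Function.Surjective ψ →
      ∃ Ψ : Gx p x →* Φ.pts ⋊[Φ.act ρ hρ hc] Q, FinLevel Ψ ∧ Function.Surjective Ψ ∧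
        ∀ γ, (Ψ γ).right = ψ γ

theorem lg_l3WL : L3WL := by
  intro p _ B _ _ _ 𝒢 Φ e hroot hL hLF Q _ _ ρ hρ hc ι _ _ P β hW Ω _ _ x ψ hst hfin hsurj
  have : CharP Ω p := charP_of_injective_algebraMap (algebraMap (ZMod p) Ω).injective p
  have : CharP (Cst p Ω) p :=
    charP_of_injective_algebraMap (algebraMap (ZMod p) (Cst p Ω)).injective p
  have : IsSepClosed Ω := hst.sepClosed
  obtain ⟨g, hgH, hinv, hgi, hgi', hpl⟩ := lg_gelW p B 𝒢 Φ hLF Q ρ ι P β hW Ω x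
    hst ψ hfin hsurj
  obtain ⟨y, hyH, hy⟩ := hL Ω g hgH
  obtain ⟨hyi, hyi'⟩ := tIntW lie_int p B 𝒢 Φ e hroot Ω x g hgH y hyH hgi hgi' hy
  obtain ⟨Ψ, hΨf, hΨr, hΨy⟩ := tTorW p B 𝒢 Φ e hroot Q ρ hρ hc Ω x ψ g y hfin hinv hgH hyH hy
  exact ⟨Ψ, hΨf, torSW lie_cong (tCongU lie_cong) lie_int (tCloW br_res) p B 𝒢 Φ e hroot Q ρ hρ
    hc Ω x ψ g y Ψ hst hsurj hyH hyi hyi' hy hΨr hΨy hpl, hΨr⟩

/-- Step Lie for the simple groups of Lie type. -/
theorem lift_lieType (h0 : LangWStmt) (h1 : L3WL) (h2 : PowAStmt) (h3 : PowWStmt)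
    (h4 : PowPStmt) (h5 : MP7Z.LG.GrpStmt) {p : ℕ} [Fact p.Prime] (hS : SolvL p) :
    NStepL p (fun S [Group S] => IsLieType p S) := by
  intro G _ _ E _ _ f hf S _ _ κ _ hSS hθ₀ Ω _ _ x₁ hx₁ ψ₁ hψ₁f hψ₁s
  obtain ⟨hsim, D, π, hπ, hσ⟩ := hSS
  obtain ⟨θ⟩ := hθ₀
  obtain ⟨Q, _, _, f₂, i, w, hf₂, hsolv, hfi, hconj⟩ :=
    h5 D.Φ.pts S D.A D.solv D.perf (D.Φ.act D.α D.stab D.comm) π hπ hσ κ G E f hf θ
  obtain ⟨y₁, hle, ψ₂, hy₁, hψ₂f, hψ₂s, hψ₂⟩ := hS Q G f₂ hf₂ hsolv Ω x₁ hx₁ ψ₁ hψ₁f hψ₁s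
  classical
  have : Fintype κ := Fintype.ofFinite κ
  have : Fintype Q := Fintype.ofFinite Q
  -- Lang's theorem
  have hL : Lang D.Φ := h0 p D.B D.H (Fin D.N) D.P D.closure D.Φ D.e 1 Nat.one_pos D.root
  have hLd : ∀ d, 0 < d → Lang (frEnd D.H d) := fun d hd =>
    h0 p D.B D.H (Fin D.N) D.P D.closure (frEnd D.H d) 1 d hd (frEnd_root D.H d)
  -- the power
  obtain ⟨hA1, hA2, hA3, hA4⟩ := h2 p D.B D.H D.Φ κ
  obtain ⟨hA5, hA6⟩ := hA4 D.A D.α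
  have hW := word_comp (h3 p D.B D.H D.A D.α (Fin D.N) D.P D.β (word_datum D) κ) w
  obtain ⟨-, ε, hε⟩ := h4 p D.B D.H D.Φ κ D.perf
  have hst : (powG κ D.H).Stable (wrAct κ D.α) := hA5 D.stab
  have hcm : (powE κ D.Φ).Comm (wrAct κ D.α) := hA6 D.comm
  obtain ⟨Ψ, hΨf, hΨs, hΨ⟩ := h1 p (κ → D.B) (powG κ D.H) (powE κ D.Φ) D.e (hA3 D.e 1 D.root)
    (hA1 hL) (fun d hd => hA2 d (hLd d hd)) Q ((wrAct κ D.α).comp w) (stable_comp hst w)
    (comm_comp hcm w) (κ × Fin D.N) (powP κ D.P) ((wrMat κ D.β).comp w) hW Ω y₁ ψ₂ hy₁ hψ₂f hψ₂s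
  -- the homomorphism onto `E`
  let f₁ : (powE κ D.Φ).pts →* E :=
    { toFun := fun b => ((θ.symm fun k => π (ε b k) : f.ker) : E)
      map_one' := by
        have h : (fun k => π (ε 1 k)) = (1 : κ → S) := by
          funext k
          rw [map_one, Pi.one_apply, map_one, Pi.one_apply]
        rw [h, map_one]
        rfl
      map_mul' := by
        intro a b
        have h : (fun k => π (ε (a * b) k)) = (fun k => π (ε a k)) * fun k => π (ε b k) := by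
          funext k
          rw [map_mul, Pi.mul_apply, map_mul, Pi.mul_apply]
        rw [h, map_mul]
        rfl }
  have hact : ∀ (q : Q) (b : (powE κ D.Φ).pts),
      f₁ ((powE κ D.Φ).act ((wrAct κ D.α).comp w) (stable_comp hst w) (comm_comp hcm w) q b) =
        i q * f₁ b * (i q)⁻¹ := by
    intro q b
    rw [act_comp]
    change ((θ.symm fun k => π (ε ((powE κ D.Φ).act (wrAct κ D.α) hst hcm (w q) b) k) : f.ker) :
      E) = i q * ((θ.symm fun k => π (ε b k) : f.ker) : E) * (i q)⁻¹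
    rw [hconj q (ε b)]
    have h : (fun k => π (ε ((powE κ D.Φ).act (wrAct κ D.α) hst hcm (w q) b) k)) =
        fun k => π (D.Φ.act D.α D.stab D.comm ((w q).left k) (ε b ((w q).right.symm k))) := by
      funext k
      rw [hε D.A D.α D.stab D.comm hst hcm (w q) b k]
    rw [h]
  let F : (powE κ D.Φ).pts ⋊[(powE κ D.Φ).act ((wrAct κ D.α).comp w) (stable_comp hst w)
      (comm_comp hcm w)] Q →* E := SemidirectProduct.lift f₁ i (by
    intro q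
    ext b
    exact hact q b)
  have hF : Function.Surjective F := by
    intro a
    obtain ⟨q, hq⟩ := hf₂ (f a)
    have hk : a * (i q)⁻¹ ∈ f.ker := by
      rw [MonoidHom.mem_ker, map_mul, map_inv, hfi, hq, mul_inv_cancel]
    choose b hb using fun k => hπ (θ ⟨_, hk⟩ k)
    refine ⟨⟨ε.symm b, q⟩, ?_⟩
    change ((θ.symm fun k => π (ε (ε.symm b) k) : f.ker) : E) * i q = a
    have h : (fun k => π (ε (ε.symm b) k)) = θ ⟨_, hk⟩ := by
      funext k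
      rw [MulEquiv.apply_symm_apply, hb]
    rw [h, MulEquiv.symm_apply_apply]
    exact inv_mul_cancel_right a (i q)
  refine ⟨y₁, hle, F.comp Ψ, hy₁, FinLevel.postcomp hΨf F, hF.comp hΨs, fun γ => ?_⟩
  have e1 : F (Ψ γ) = f₁ (Ψ γ).left * i (Ψ γ).right := rfl
  have e2 : f (f₁ (Ψ γ).left) = 1 :=
    MonoidHom.mem_ker.1 (θ.symm fun k => π (ε (Ψ γ).left k) : f.ker).2
  rw [MonoidHom.comp_apply, e1, map_mul, e2, one_mul, hΨ, hfi, hψ₂ γ]

/-- **Step Lie for the simple groups of Lie type.** -/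
theorem nStepL_lieType {p : ℕ} [Fact p.Prime] (hS : SolvL p) :
    NStepL p (fun S [Group S] => OfLieType p S) := by
  have h2 := lift_lieType lg_langW lg_l3WL tPowA tPowW tPowP MP7Z.LG.tGrp hS
  intro G _ _ E _ _ f hf S _ _ κ _ hSS hθ
  exact h2 G E f hf S κ hSS.isLieType hθ

end MP7K
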