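import Pool.Agent.Lib.MP_7f581e_K.R.Spec
import Pool.Agent.Lib.MP_7f581e_K.R.L
import Pool.Agent.Lib.MP_7f581e_K.F.Close

/-!
# C36: the lifting form for solvable kernels and factors at the bottom
-/

set_option autoImplicit false

namespace MP7K

open MP7Z MP7fR MP7fC MP7fE

section

variable {p : ℕ} [Fact p.Prime]

theorem LiftW.comp {E F G : Type} [Group E] [Group F] [Group G] {g : E →* F} {h : F →* G}
    (hg : LiftW p g) (hh : LiftW p h) : LiftW p (h.comp g) := by
  intro Ω _ _ x hx ψ hf hs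
  obtain ⟨y, hle, ψ₁, hy, hf₁, hs₁, h₁⟩ := hh Ω x hx ψ hf hs
  obtain ⟨z, hle', ψ₂, hz, hf₂, hs₂, h₂⟩ := hg Ω y hy ψ₁ hf₁ hs₁
  refine ⟨z, hle'.trans hle, ψ₂, hz, hf₂, hs₂, fun γ => ?_⟩
  rw [MonoidHom.comp_apply, h₂ γ, h₁]

theorem FinLevel.postcomp {Ω : Type} [Field Ω] [Algebra (ZMod p) Ω]
    {H : Subgroup (Ω ≃ₐ[ZMod p] Ω)} {G G' : Type} [Group G] [Group G'] {ψ : H →* G}
    (h : FinLevel ψ) (θ : G →* G') : FinLevel (θ.comp ψ) := by
  obtain ⟨S, hS⟩ := h
  refine ⟨S, fun γ hγ => ?_⟩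
  rw [MonoidHom.comp_apply, hS γ hγ, map_one]

theorem LiftW.congr_right {E G G' : Type} [Group E] [Group G] [Group G'] {f : E →* G}
    (θ : G ≃* G') (h : LiftW p f) : LiftW p (θ.toMonoidHom.comp f) := by
  intro Ω _ _ x hx ψ hf hs
  obtain ⟨y, hle, ψ₁, hy, hf₁, hs₁, h₁⟩ := h Ω x hx (θ.symm.toMonoidHom.comp ψ)
    (FinLevel.postcomp hf _) (θ.symm.surjective.comp hs)
  refine ⟨y, hle, ψ₁, hy, hf₁, hs₁, fun γ => ?_⟩
  rw [MonoidHom.comp_apply, h₁ γ]
  exact θ.apply_symm_apply _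

theorem liftW_equiv {E G : Type} [Group E] [Group G] (θ : E ≃* G) :
    LiftW p θ.toMonoidHom := by
  intro Ω _ _ x hx ψ hf hs
  exact ⟨x, le_rfl, θ.symm.toMonoidHom.comp ψ, hx, FinLevel.postcomp hf _,
    θ.symm.surjective.comp hs, fun γ => θ.apply_symm_apply _⟩

theorem LiftW.of_mk {E G : Type} [Group E] [Group G] {f : E →* G} (hf : Function.Surjective f)
    (h : LiftW p (QuotientGroup.mk' f.ker)) : LiftW p f := by
  have h1 := h.congr_right (QuotientGroup.quotientKerEquivOfSurjective f hf)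
  have h2 : (QuotientGroup.quotientKerEquivOfSurjective f hf).toMonoidHom.comp
      (QuotientGroup.mk' f.ker) = f := by
    ext x
    rfl
  rwa [h2] at h1

theorem LiftW.of_surjective {E' E G : Type} [Group E'] [Group E] [Group G] {f' : E' →* G}
    {f : E →* G} (q : E' →* E) (hq : Function.Surjective q) (h : ∀ x, f (q x) = f' x)
    (hf' : LiftW p f') : LiftW p f := by
  intro Ω _ _ x hx ψ hf hs
  obtain ⟨y, hle, ψ₁, hy, hf₁, hs₁, h₁⟩ := hf' Ω x hx ψ hf hs
  refine ⟨y, hle, q.comp ψ₁, hy, FinLevel.postcomp hf₁ _, hq.comp hs₁, fun γ => ?_⟩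
  rw [MonoidHom.comp_apply, h, h₁]

/-- Induction over a chief series. -/
theorem liftW_of_factors {𝒮 : (S : Type) → [Group S] → Prop}
    (hiso : ∀ (S T : Type) [Group S] [Group T], (S ≃* T) → 𝒮 S → 𝒮 T)
    (hsim : ∀ (S : Type) [Group S], 𝒮 S → IsSimpleGroup S)
    (hstep : ∀ (E : Type) [Group E] [Finite E] (N : Subgroup E) [N.Normal] (S : Type) [Group S]
      (k : ℕ), 𝒮 S → (N ≃* (Fin k → S)) → LiftW p (QuotientGroup.mk' N)) :
    ∀ (E : Type) [Group E] [Finite E] (N : Subgroup E) [N.Normal], HasFactors 𝒮 N →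
      LiftW p (QuotientGroup.mk' N) := by
  suffices H : ∀ (m : ℕ) (E : Type) [Group E] [Finite E] (N : Subgroup E) [N.Normal],
      Nat.card E = m → HasFactors 𝒮 N → LiftW p (QuotientGroup.mk' N) from
    fun E _ _ N _ hN => H _ E N rfl hN
  intro m
  induction m using Nat.strong_induction_on with
  | _ m ih =>
    intro E _ _ N _ hm hN
    by_cases hbot : N = ⊥
    · subst hbot
      exact liftW_equiv (QuotientGroup.quotientBot (G := E)).symm
    · obtain ⟨M, hM, hMN, hM1, S, hS, hSs, k, ⟨φ⟩⟩ := exists_minNormal N hbot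
      have h1 : HasFactors 𝒮 M := by
        refine hN.of_injective hiso hsim M (Subgroup.inclusion hMN)
          (Subgroup.inclusion_injective hMN) ?_
        constructor
        rintro _ ⟨x, rfl⟩ g
        exact ⟨⟨g * x * g⁻¹, hM.conj_mem x x.2 g⟩, rfl⟩
      have h2 : HasFactors 𝒮 S := by
        refine h1.of_injective hiso hsim S S.subtype S.subtype_injective ?_
        rw [Subgroup.range_subtype]
        exact hS
      have h3 : 𝒮 S := h2.mem_of_isSimpleGroup hiso hsim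
      have hlt : Nat.card (E ⧸ M) < m := by
        rw [← hm]
        have h4 := Subgroup.card_eq_card_quotient_mul_card_subgroup M
        have h5 : 1 < Nat.card M := by
          rw [← Subgroup.one_lt_card_iff_ne_bot] at hM1
          exact hM1
        have h6 : 0 < Nat.card (E ⧸ M) := Nat.card_pos
        rw [h4]
        nlinarith
      have hn : (N.map (QuotientGroup.mk' M)).Normal :=
        Subgroup.Normal.map inferInstance _ (QuotientGroup.mk'_surjective M)
      have h7 : LiftW p (QuotientGroup.mk' (N.map (QuotientGroup.mk' M))) := by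
        refine ih _ hlt (E ⧸ M) (N.map (QuotientGroup.mk' M)) rfl ?_
        let f' : N →* N.map (QuotientGroup.mk' M) :=
          ((QuotientGroup.mk' M).comp N.subtype).codRestrict (N.map (QuotientGroup.mk' M))
            fun x => ⟨x, x.2, rfl⟩
        refine hN.of_surjective hiso hsim _ f' ?_
        rintro ⟨_, x, hx, rfl⟩
        exact ⟨⟨x, hx⟩, rfl⟩
      exact ((hstep E M S k h3 φ).comp h7).congr_right
        (QuotientGroup.quotientQuotientEquivQuotient M N hMN)

/-- Solutions over `𝔽_p(X)`. -/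
theorem liftW_of_solves (hS : SolvHStmt) {E G : Type} [Group E] [Finite E] [Group G] [Finite G]
    {f : E →* G} (h : Solves (RatFunc (ZMod p)) f) : LiftW p f := by
  intro Ω _ _ x hx ψ hf hs
  obtain ⟨ψ', h1, h2, h3⟩ := hS p E G f h Ω x hx ψ hf hs
  exact ⟨x, le_rfl, ψ', hx, h1, h2, h3⟩

/-- **(IV.1)**, lifting form: abelian kernels of exponent `ℓ ≠ p`. -/
theorem liftW_ab (hS : SolvHStmt) {E G : Type} [Group E] [Finite E] [Group G] [Finite G]
    (f : E →* G) (hf : Function.Surjective f) (ℓ : ℕ) (hℓ : ℓ.Prime) (hℓp : ℓ ≠ p)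
    (hfℓ : ∀ a ∈ f.ker, a ^ ℓ = 1) (hfc : ∀ a ∈ f.ker, ∀ b ∈ f.ker, a * b = b * a) :
    LiftW p f := by
  intro Ω _ _ x hx ψ hfin hs
  have hH : IsHilbertian (RatFunc (ZMod p)) := MP7fR.isHilbertian_ratFunc (ZMod p)
  have hR : Rr p x ψ (P2RDW.im ψ) :=
    { stage := hx
      fin := hfin
      surj := hs
      mem := fun γ hγ => P2RDW.mem_im.2 ⟨γ, hγ, rfl⟩
      reg := fun g hg => P2RDW.mem_im.1 hg }
  obtain ⟨y, hle, hRD⟩ := k2StartWr p Ω x G ψ _ hR
  obtain ⟨z, hle', hRD', ψ', hfin', hψ'⟩ := weakWr p Ω y G (rs hle ψ) _ hRD E f hf ℓ hℓ hℓp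
    hfℓ hfc
  have hψ'' : ∀ γ : Gx p z, f (ψ' γ) = ψ ⟨γ, hle (hle' γ.2)⟩ := fun γ =>
    hψ' γ γ.2 (hle' γ.2)
  have hsup : f.ker ⊔ ψ'.range = ⊤ := by
    rw [eq_top_iff]
    intro e _
    obtain ⟨γ, hγ⟩ := hRD'.surj (f e)
    have h1 : f (ψ' γ) = f e := by
      rw [← hγ]
      exact hψ' γ γ.2 (hle' γ.2)
    have h2 : e = e * (ψ' γ)⁻¹ * ψ' γ := by group
    rw [h2]
    refine Subgroup.mul_mem_sup ?_ ⟨γ, rfl⟩
    rw [MonoidHom.mem_ker, map_mul, map_inv, h1, mul_inv_cancel]
  have hsol : Solves (RatFunc (ZMod p)) (SemidirectProduct.rightHom :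
      f.ker ⋊[cact f.ker ψ'.range] ψ'.range →* ψ'.range) :=
    solves_split_abelian p (fun r {E G} _ _ _ f h => solves_of_mv hH f _ h)
      (fun {E} _ _ N _ hN => solves_of_pKernel (p := p) hH N hN)
      (fun a b => Subtype.ext (hfc a a.2 b b.2)) (cact f.ker ψ'.range)
  have : Finite (f.ker ⋊[cact f.ker ψ'.range] ψ'.range) :=
    Finite.of_equiv _ SemidirectProduct.equivProd.symm
  obtain ⟨Ψ, hΨf, hΨs, hΨ⟩ := hS p _ _ _ hsol Ω z hRD'.stage ψ'.rangeRestrict (by
    obtain ⟨S, hS⟩ := hfin'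
    exact ⟨S, fun γ hγ => Subtype.ext (hS γ hγ)⟩) ψ'.rangeRestrict_surjective
  refine ⟨z, hle'.trans hle, (sdMap f.ker ψ'.range).comp Ψ, hRD'.stage,
    FinLevel.postcomp hΨf _, (sdMap_surjective f.ker ψ'.range hsup).comp hΨs, fun γ => ?_⟩
  have h1 : f (sdMap f.ker ψ'.range (Ψ γ)) = f (((Ψ γ).right : ψ'.range) : E) := by
    have h2 : sdMap f.ker ψ'.range (Ψ γ) = ((Ψ γ).left : E) * ((Ψ γ).right : E) := rfl
    rw [h2, map_mul, MonoidHom.mem_ker.1 (Ψ γ).left.2, one_mul]
  have h3 : ((Ψ γ).right : ψ'.range) = ψ'.rangeRestrict γ := hΨ γ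
  rw [MonoidHom.comp_apply, h1, h3, ← hψ'' γ]
  rfl

theorem isCloseFactor_simple {S : Type} [Group S] (h : IsCloseFactor p S) : IsSimpleGroup S := by
  rcases h with h | h
  · have : Fact (Nat.card S).Prime := ⟨h⟩
    exact isSimpleGroup_of_prime_card rfl
  · exact h.isSimpleGroup

theorem isCloseFactor_congr {S T : Type} [Group S] [Group T] (e : S ≃* T)
    (h : IsCloseFactor p S) : IsCloseFactor p T := by
  rcases h with h | h
  · left
    rw [← Nat.card_congr e.toEquiv]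
    exact h
  · exact Or.inr (IsBottomFactor.congr e h)

/-- The lifting form for prime orders and factors at the bottom, one minimal normal subgroup. -/
theorem liftW_close (hS : SolvHStmt) (E : Type) [Group E] [Finite E] (N : Subgroup E) [N.Normal]
    (S : Type) [Group S] (k : ℕ) (h3 : IsCloseFactor p S) (φ : N ≃* (Fin k → S)) :
    LiftW p (QuotientGroup.mk' N) := by
  have hker : (QuotientGroup.mk' N).ker = N := QuotientGroup.ker_mk' N
  have hbot : IsBottomFactor p S → LiftW p (QuotientGroup.mk' N) := fun h4 =>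
    liftW_of_solves hS ((goodAt_bottom p).step E N S k h4 φ)
  rcases h3 with h3 | h3
  · obtain ⟨h1, h2⟩ := elem_of_pi φ h3 rfl
    by_cases hℓ : Nat.card S = p
    · exact hbot (Or.inl (Or.inl hℓ))
    · refine liftW_ab hS (QuotientGroup.mk' N) (QuotientGroup.mk'_surjective N)
        (Nat.card S) h3 hℓ ?_ ?_
      · intro a ha
        rw [hker] at ha
        exact congrArg Subtype.val (h1 ⟨a, ha⟩)
      · intro a ha b hb
        rw [hker] at ha hb
        exact congrArg Subtype.val (h2 ⟨a, ha⟩ ⟨b, hb⟩)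
  · exact hbot h3

/-- The lifting form for solvable kernels. -/
theorem liftW_solv (hS : SolvHStmt) {E G : Type} [Group E] [Finite E] [Group G]
    (f : E →* G) (hf : Function.Surjective f) (hsolv : Group.IsSolvable f.ker) : LiftW p f := by
  refine LiftW.of_mk hf (liftW_of_factors (𝒮 := fun S [Group S] => IsCloseFactor p S)
    (fun S T _ _ e h => isCloseFactor_congr e h) (fun S _ h => isCloseFactor_simple h)
    (fun E _ _ N _ S _ k h φ => liftW_close hS E N S k h φ) E f.ker ?_)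
  exact Top.Per_solv (𝒮 := fun S [Group S] => IsCloseFactor p S)
    (fun S T _ _ e h => isCloseFactor_congr e h) (fun S _ h => isCloseFactor_simple h)
      (fun S _ h => Or.inl h) _ f.ker rfl

end

end MP7K
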