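import Pool.Agent.Lib.MP_7f581e_K.R.GalH4

/-!
# C36: OfHom
-/

set_option autoImplicit false

namespace MP7K

open MP7Z MP7fR

theorem rOfHom : OfHomStmt := by
  intro p _ k _ _ _ Ω _ _ x κ G _ ρ hst hk hfin hρ
  obtain ⟨e⟩ := hk
  let τ : k →+* Ω := (algebraMap κ Ω).comp (e : k →+* κ)
  have hκ : ∀ a, a ∈ κ ↔ ∃ b, τ b = a := by
    intro a
    constructor
    · intro ha
      refine ⟨e.symm ⟨a, ha⟩, ?_⟩
      change ((e (e.symm ⟨a, ha⟩) : κ) : Ω) = a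
      rw [e.apply_symm_apply]
    · rintro ⟨b, rfl⟩
      exact (e b).2
  let _ : Algebra (RatFunc k) Ω := (H4.embk hst τ).toAlgebra
  have hgal : IsGalois (RatFunc k) Ω :=
    H4.isGalois_of hst (H4.embk hst τ) fun f hf => H4.mem_range_embk hst _ hf
  let T := H4.galEquiv (K := RatFunc k) (Gk p x κ) (fun γ => H4.mem_Gk_iff hst τ hκ γ)
  obtain ⟨S, hS⟩ := hfin
  obtain ⟨L, h1, h2, e', -⟩ := H4.exists_field (ρ.comp T.toMonoidHom) (hρ.comp T.surjective) S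
    (fun γ hγ => hS (T γ) hγ)
  exact ⟨L, inferInstance, inferInstance, h1, h2, ⟨e'⟩⟩

end MP7K
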