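import Pool.Agent.Lib.MP_7f581e_K.R.GalH4
import Pool.Agent.Lib.MP_7f581e_Z.Top.Emb

/-!
# C36: SolvH
-/

set_option autoImplicit false

namespace MP7K

open MP7Z MP7fR

theorem rSolvH : SolvHStmt := by
  intro p _ E G _ _ _ _ f hf Ω _ _ x hst ψ hfin hψ
  have := hst.sepClosed
  let _ : Algebra (RatFunc (ZMod p)) Ω := (emb hst.transc).toAlgebra
  have hgal : IsGalois (RatFunc (ZMod p)) Ω := isGalois_emb hst
  have hH : ∀ γ : Ω ≃ₐ[ZMod p] Ω, γ ∈ Gx p x ↔ ∀ r : RatFunc (ZMod p),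
      γ (algebraMap (RatFunc (ZMod p)) Ω r) = algebraMap (RatFunc (ZMod p)) Ω r := by
    intro γ
    constructor
    · intro h r
      exact Top.Emb_fix hst.transc (mem_Gx.1 h) r
    · intro h
      rw [mem_Gx]
      have h1 := h RatFunc.X
      have h2 : algebraMap (RatFunc (ZMod p)) Ω RatFunc.X = x := emb_X hst.transc
      rwa [h2] at h1
  let T := H4.galEquiv (Gx p x) hH
  obtain ⟨S, hS⟩ := hfin
  obtain ⟨ψ', hs, ⟨S', hS'⟩, h⟩ := H4.solves_gal f hf (ψ.comp T.toMonoidHom) (hψ.comp T.surjective)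
    S (fun γ hγ => hS (T γ) hγ)
  refine ⟨ψ'.comp T.symm.toMonoidHom, ⟨S', fun γ hγ => hS' (T.symm γ) hγ⟩,
    hs.comp T.symm.surjective, fun γ => ?_⟩
  have h1 := h (T.symm γ)
  refine h1.trans ?_
  change ψ (T (T.symm γ)) = ψ γ
  rw [T.apply_symm_apply]

end MP7K
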