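import Pool.Agent.Lib.MP_7f581e_K.R.GalH4

/-!
# C36: ToHom
-/

set_option autoImplicit false

namespace MP7K

open MP7Z MP7fR

theorem rToHom : ToHomStmt := by
  intro p _ k _ _ _ G _ h
  obtain ⟨L, _, _, _, _, ⟨e⟩⟩ := h
  have hst := isStage_xx p
  let _ : Algebra (ZMod p) k := ZMod.algebra k p
  have halg : Algebra.IsAlgebraic (ZMod p) k := Algebra.IsAlgebraic.of_finite _ _
  let τ : k →ₐ[ZMod p] Om p := IsSepClosed.lift
  have hκ : ∀ a, a ∈ τ.fieldRange ↔ ∃ b, (τ : k →+* Om p) b = a := fun a => Iff.rfl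
  let _ : Algebra (RatFunc k) (Om p) := (H4.embk hst (τ : k →+* Om p)).toAlgebra
  have hgal : IsGalois (RatFunc k) (Om p) :=
    H4.isGalois_of hst (H4.embk hst (τ : k →+* Om p)) fun f hf => H4.mem_range_embk hst _ hf
  let j : L →ₐ[RatFunc k] Om p := IsSepClosed.lift
  let _ : Algebra L (Om p) := j.toRingHom.toAlgebra
  have : IsScalarTower (RatFunc k) L (Om p) :=
    IsScalarTower.of_algebraMap_eq' j.comp_algebraMap.symm
  obtain ⟨ψ, hs, ⟨S, hS⟩, -⟩ := H4.exists_hom (Ω := Om p) L e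
  let T := H4.galEquiv (K := RatFunc k) (Gk p (xx p) τ.fieldRange)
    (fun γ => H4.mem_Gk_iff hst (τ : k →+* Om p) hκ γ)
  exact ⟨Om p, inferInstance, inferInstance, xx p, τ.fieldRange, ψ.comp T.symm.toMonoidHom, hst,
    ⟨(AlgEquiv.ofInjectiveField τ).toRingEquiv⟩, ⟨S, fun γ hγ => hS (T.symm γ) hγ⟩,
    hs.comp T.symm.surjective⟩

end MP7K
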