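import Pool.Agent.Lib.MP_7f581e_K.R.Fin
import Pool.Agent.Lib.MP_7f581e_K.R.SolvH
import Pool.Agent.Lib.MP_7f581e_K.R.GALift
import Pool.Agent.Lib.MP_7f581e_K.R.Ind
import Pool.Agent.Lib.MP_7f581e_K.R.ToHom
import Pool.Agent.Lib.MP_7f581e_K.R.OfHom

/-!
# C36, complete: closure under extensions over `k(X)`
-/

set_option autoImplicit false

universe u

namespace MP7K

open MP7Z MP7fR MP7fC MP7fE

theorem isKernelFactor_simpleR {p : ℕ} [Fact p.Prime] (S : Type) [Group S]
    (h : IsKernelFactor p S) : IsSimpleGroup S :=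
  isFac_simple S (isKernelFactor_isFac h)

theorem isKernelFactor_congrR {p : ℕ} [Fact p.Prime] (S T : Type) [Group S] [Group T] (e : S ≃* T)
    (h : IsKernelFactor p S) : IsKernelFactor p T := by
  rcases h with h | ⟨n, h5, h6, ⟨f⟩⟩ | h | h | h | h
  · left
    rw [← Nat.card_congr e.toEquiv]
    exact h
  · exact Or.inr (Or.inl ⟨n, h5, h6, ⟨e.symm.trans f⟩⟩)
  · exact Or.inr (Or.inr (Or.inl (h.congr e)))
  · exact Or.inr (Or.inr (Or.inr (Or.inl (h.congr e))))
  · exact Or.inr (Or.inr (Or.inr (Or.inr (Or.inl (h.congr e)))))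
  · exact Or.inr (Or.inr (Or.inr (Or.inr (Or.inr (h.congr e)))))

/-- **The closure theorem over `k(X)`.** -/
theorem closureK {p : ℕ} [Fact p.Prime] (k : Type) [Field k] [Finite k] [CharP k p] (G : Type)
    [Group G] [Finite G] (N : Subgroup G) [N.Normal]
    (hN : HasFactors (fun S [Group S] => IsKernelFactor p S) N)
    (h : Occurs (G ⧸ N) (RatFunc k)) : Occurs G (RatFunc k) :=
  closureK_of rSolvH (rGALift rSolvH) rInd rToHom rOfHom k G N hN h

/-- The regular version. -/
theorem closureK_regular {p : ℕ} [Fact p.Prime] {k : Type} [Field k] [Finite k] [CharP k p]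
    {G : Type} [Group G] [Finite G] (N : Subgroup G) [N.Normal]
    (hN : HasFactors (fun S [Group S] => IsKernelFactor p S) N) (h : OccursRegularly (G ⧸ N) k) :
    (∀ (K : Type u) [Field K] [Algebra k K], OccursRegularly G K) ∧
      ∀ (K : Type u) [Field K] [Algebra k K], IsHilbertian K → Occurs G K :=
  regular_of_plain (fun G _ _ N _ hN h => closureK k G N hN h) isKernelFactor_congrR
    isKernelFactor_simpleR N hN h

end MP7K
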