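import Pool.Agent.Lib.MP_7f581e_K.R.Unr

/-!
# C36, Part II for realizations which need not be regular: end results
-/

set_option autoImplicit false

namespace MP7K

open MP7Z Polynomial P2Six

namespace Rel

/-- **Six**, relative version. -/
theorem six {p : ℕ} [Fact p.Prime] {Ω : Type} [Field Ω] [Algebra (ZMod p) Ω] {x : Ω}
    {G : Type} [Group G] [Finite G] {ψ : Gx p x →* G} {G₀ : Subgroup G} (hRz : Rr p x ψ G₀) :
    ∃ w : List (Atom p), OkW w ∧ ∃ y : Ω, ev w y = x ∧ ∃ h : Gx p y ≤ Gx p x,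
      RDr p y (rs h ψ) G₀ := by
  have hst := hRz.stage
  have := hst.sepClosed
  have hG : 0 < Nat.card G := Nat.card_pos
  obtain ⟨m, hm⟩ : ∃ m, m = p * Nat.card G + 1 := ⟨_, rfl⟩
  have hmp : m.Coprime p := by
    rw [hm]
    simp
  have hmG : m.Coprime (Nat.card G) := by
    rw [hm]
    simp
  have hpm : p ≤ m := by
    rw [hm]
    nlinarith
  have htr : (Atom.tr 1 : Atom p).Ok := ok_tr 1
  have hpw : (Atom.pow m : Atom p).Ok := ok_pow hmp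
  have hiv : (Atom.inv : Atom p).Ok := ok_inv
  have w1 : OkW ([.pow m] : List (Atom p)) := okW_cons hpw okW_nil
  have w2 : OkW ([.tr 1, .pow m] : List (Atom p)) := okW_cons htr w1
  have w3 : OkW ([.inv, .tr 1, .pow m] : List (Atom p)) := okW_cons hiv w2
  have w4 : OkW ([.pow m, .inv, .tr 1, .pow m] : List (Atom p)) := okW_cons hpw w3
  have w5 : OkW ([.tr 1, .pow m, .inv, .tr 1, .pow m] : List (Atom p)) := okW_cons htr w4
  have w6 : OkW ([.pow m, .tr 1, .pow m, .inv, .tr 1, .pow m] : List (Atom p)) := okW_cons hpw w5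
  obtain ⟨z6, hz6⟩ := k2Ex p Ω _ w6 x
  obtain ⟨z5, hz5⟩ : ∃ z, z6 ^ m = z := ⟨_, rfl⟩
  obtain ⟨z4, hz4⟩ : ∃ z, z5 + 1 = z := ⟨_, rfl⟩
  obtain ⟨z3, hz3⟩ : ∃ z, z4⁻¹ = z := ⟨_, rfl⟩
  obtain ⟨z2, hz2⟩ : ∃ z, z3 ^ m = z := ⟨_, rfl⟩
  obtain ⟨z1, hz1⟩ : ∃ z, z2 + 1 = z := ⟨_, rfl⟩
  have e5 : ev ([.pow m] : List (Atom p)) z6 = z5 := by
    rw [ev_cons, ev_nil, ev_pow, hz5]
  have e4 : ev ([.tr 1, .pow m] : List (Atom p)) z6 = z4 := by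
    rw [ev_cons, e5, ev_tr, hz4]
  have e3 : ev ([.inv, .tr 1, .pow m] : List (Atom p)) z6 = z3 := by
    rw [ev_cons, e4, ev_inv, hz3]
  have e2 : ev ([.pow m, .inv, .tr 1, .pow m] : List (Atom p)) z6 = z2 := by
    rw [ev_cons, e3, ev_pow, hz2]
  have e1 : ev ([.tr 1, .pow m, .inv, .tr 1, .pow m] : List (Atom p)) z6 = z1 := by
    rw [ev_cons, e2, ev_tr, hz1]
  have hz0 : z1 ^ m = x := by
    rw [ev_cons, e1, ev_pow] at hz6
    exact hz6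
  have t1 : OkW ([.tr 1] : List (Atom p)) := okW_cons htr okW_nil
  have i1 : OkW ([.inv] : List (Atom p)) := okW_cons hiv okW_nil
  -- the stages
  obtain ⟨s1, h1⟩ := k2Stg p Ω x hst [.pow m] w1 z1 (by rw [ev_cons, ev_nil, ev_pow, hz0])
  obtain ⟨s2, h2⟩ := k2Stg p Ω z1 s1 [.tr 1] t1 z2 (by rw [ev_cons, ev_nil, ev_tr, hz1])
  obtain ⟨s3, h3⟩ := k2Stg p Ω z2 s2 [.pow m] w1 z3 (by rw [ev_cons, ev_nil, ev_pow, hz2])
  obtain ⟨s4, h4⟩ := k2Stg p Ω z3 s3 [.inv] i1 z4 (by rw [ev_cons, ev_nil, ev_inv, hz3])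
  obtain ⟨s5, h5⟩ := k2Stg p Ω z4 s4 [.tr 1] t1 z5 (by rw [ev_cons, ev_nil, ev_tr, hz4])
  obtain ⟨s6, h6⟩ := k2Stg p Ω z5 s5 [.pow m] w1 z6 (by rw [ev_cons, ev_nil, ev_pow, hz5])
  -- the realizations
  have r1 := powS hRz m hmp hmG z1 hz0 h1
  have r2 := mob r1 h2 (Or.inl hz1)
  have r3 := powS r2 m hmp hmG z3 hz2 h3
  have r4 := mob r3 h4 (Or.inr hz3)
  have r5 := mob r4 h5 (Or.inl hz4)
  have r6 := powS r5 m hmp hmG z6 hz5 h6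
  have h01 : (0 : Ω) - 1 ≠ 0 := by
    rw [zero_sub]
    exact neg_ne_zero.2 one_ne_zero
  refine ⟨_, w6, z6, hz6, h6.trans (h5.trans (h4.trans (h3.trans (h2.trans h1)))),
    { toRr := r6, ram := ?_ }⟩
  intro N hN hle hne hcomm
  obtain ⟨c, hc⟩ := ss hRz N hle hne hcomm
  have hmN : m.Coprime N.index := Nat.Coprime.coprime_dvd_right (Subgroup.index_dvd_card N) hmG
  rcases c with _ | c₀
  · -- the point at infinity
    have a1 := k2PowO p Ω x hst G ψ N hN m hmp hmN z1 hz0 h1 none (Or.inl rfl) hc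
    have a2 := ((k2Mob p Ω z1 s1 G (rs h1 ψ) z2 h2).2 N).2.1 hz1 a1
    have a3 := k2PowO p Ω z2 s2 G _ N hN m hmp hmN z3 hz2 h3 none (Or.inl rfl) a2
    have a4 := ((k2Mob p Ω z3 s3 G _ z4 h4).2 N).2.2 hz3 a3
    have a5 := ((k2Mob p Ω z4 s4 G _ z5 h5).2 N).1 hz4 0 a4
    exact k2PowR p Ω z5 s5 G _ N hN m hmp hpm z6 hz5 h6 _ h01 a5
  · by_cases h0 : c₀ = 0
    · subst h0
      have a1 := k2PowO p Ω x hst G ψ N hN m hmp hmN z1 hz0 h1 (some 0) (Or.inr rfl) hc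
      have a2 := ((k2Mob p Ω z1 s1 G (rs h1 ψ) z2 h2).2 N).1 hz1 0 a1
      obtain ⟨b, hb, a3⟩ := k2PowR p Ω z2 s2 G _ N hN m hmp hpm z3 hz2 h3 _ h01 a2
      exact k2Keep p Ω z3 s3 G _ N b hb a3 _ w3 z6 e3 (h6.trans (h5.trans h4))
    · obtain ⟨b, hb, a1⟩ := k2PowR p Ω x hst G ψ N hN m hmp hpm z1 hz0 h1 c₀ h0 hc
      exact k2Keep p Ω z1 s1 G _ N b hb a1 _ w5 z6 e1
        (h6.trans (h5.trans (h4.trans (h3.trans h2))))

end Rel

/-- **(II.0) and (II.1)**, relative version. -/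
theorem k2BaseWr : BaseWr := by
  intro p _ Ω _ _ x hst w hw
  have := hst.sepClosed
  obtain ⟨y, hy⟩ := k2Ex p Ω w hw x
  obtain ⟨h1, h2⟩ := k2Stg p Ω x hst w hw y hy
  exact ⟨y, hy, h1, h2, fun G _ _ ψ G₀ hψ => Rel.rdw w hψ hw y hy h2⟩

/-- **(II.2)**, relative version. -/
theorem k2StartWr : StartWr := by
  intro p _ Ω _ _ x G _ _ ψ G₀ hψ
  obtain ⟨w, hw, y, hy, h, hRD⟩ := Rel.six hψ
  exact ⟨y, h, hRD⟩

end MP7K
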