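import Pool.Agent.Lib.MP_7f581e_K.R.Defs
import Pool.Agent.Lib.MP_7f581e_K.P2.Main
import Pool.Agent.Lib.MP_7f581e_Z.CS.Den

/-!
# C36, Part II for realizations which need not be regular
-/

set_option autoImplicit false

namespace MP7K

open MP7Z Polynomial

namespace Rel

section

variable {p : ℕ} [Fact p.Prime] {Ω : Type} [Field Ω] [Algebra (ZMod p) Ω]

/-- A homomorphism which is onto `G₀` on the geometric part over `z` is onto. -/
theorem surj {x z : Ω} (hz : IsStage p z) (h : Gx p z ≤ Gx p x)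
    {G : Type} [Group G] {ψ : Gx p x →* G} {G₀ : Subgroup G} (hψ : Rr p x ψ G₀)
    (hreg : ∀ g ∈ G₀, ∃ γ : Gx p z, (γ : Ω ≃ₐ[ZMod p] Ω) ∈ geo p Ω ∧ rs h ψ γ = g) :
    Function.Surjective (rs h ψ) := by
  intro g
  obtain ⟨γ, rfl⟩ := hψ.surj g
  obtain ⟨⟨φ, hφz, hφ⟩, -⟩ := br_frb p Ω z hz
  obtain ⟨S, hS⟩ := hψ.fin
  obtain ⟨u, hu, hug, i, hi⟩ := Den_dense' hψ.stage (h hφz) hφ
    (fun S => (br_frb p Ω x hψ.stage).2 φ (h hφz) S) γ.2 S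
  have h1 : ψ γ = ψ ⟨u, hu⟩ * ψ ⟨φ ^ i, pow_mem (h hφz) i⟩ := by
    have h2 : ψ (γ⁻¹ * (⟨u, hu⟩ * ⟨φ ^ i, pow_mem (h hφz) i⟩)) = 1 := by
      apply hS
      intro s hs
      change (γ : Ω ≃ₐ[ZMod p] Ω).symm (u ((φ ^ i) s)) = s
      rw [← hi s hs]
      exact AlgEquiv.symm_apply_apply _ _
    rw [map_mul, map_inv, inv_mul_eq_one, map_mul] at h2
    exact h2
  obtain ⟨δ, hδ, hδ'⟩ := hreg _ (hψ.mem ⟨u, hu⟩ hug)
  refine ⟨δ * ⟨φ ^ i, pow_mem hφz i⟩, ?_⟩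
  rw [map_mul, hδ', h1]
  rfl

/-- The conjugates of a point above `x` are fixed by the geometric elements which fix it. -/
theorem fix_conj {x z : Ω} (hst : IsStage p x) (a : Atom p) (ha : a.Ok) (hz : a.ev z = x)
    {γ : Ω ≃ₐ[ZMod p] Ω} (hγ : γ ∈ Gx p x) {δ : Ω ≃ₐ[ZMod p] Ω} (hδ : δ ∈ geo p Ω)
    (hδz : δ z = z) : δ (γ z) = γ z := by
  have hγx : γ x = x := mem_Gx.1 hγ
  have hx0 : x ≠ 0 := by
    intro h
    apply hst.transc
    rw [h]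
    exact P2Com.zero_alg
  cases a with
  | tr c =>
    have hy' : z + algebraMap (ZMod p) Ω c = x := hz
    have key : γ z = z := by
      rw [← hy', map_add, AlgEquiv.commutes] at hγx
      exact add_right_cancel hγx
    rw [key, hδz]
  | inv =>
    have hy' : z⁻¹ = x := hz
    have key : γ z = z := by
      rw [← hy', map_inv₀] at hγx
      exact inv_injective hγx
    rw [key, hδz]
  | pow n =>
    have hy' : z ^ n = x := hz
    have hn : 0 < n := by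
      rcases Nat.eq_zero_or_pos n with h | h
      · exfalso
        rw [h] at ha
        have h1 : Nat.Coprime 0 p := ha
        rw [Nat.coprime_zero_left] at h1
        exact (Fact.out : p.Prime).one_lt.ne' h1
      · exact h
    have hz0 : z ≠ 0 := by
      intro h
      rw [h, zero_pow hn.ne'] at hy'
      exact hx0 hy'.symm
    have h1 : (γ z / z) ^ n = 1 := by
      rw [div_pow, ← map_pow, hy', hγx, div_self hx0]
    have h2 : γ z = (γ z / z) * z := by rw [div_mul_cancel₀ _ hz0]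
    rw [h2, map_mul, P2Com.root_fix hδ hn h1, hδz]
  | add l =>
    have hy' : lin p l z = x := hz
    have hl : l ≠ 0 := by
      intro h
      have h1 : l.coeff 0 ≠ 0 := ha
      rw [h, coeff_zero] at h1
      exact h1 rfl
    obtain ⟨P, hdeg, -, -, hP, hσ⟩ := k2Lin p l hl
    have hP0 : P ≠ 0 := by
      intro h
      rw [h, natDegree_zero] at hdeg
      exact (pow_pos (Fact.out : p.Prime).pos _).ne hdeg
    have hk : IsAlgebraic (ZMod p) (γ z - z) := by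
      refine ⟨P, hP0, ?_⟩
      rw [← hP Ω, map_sub]
      have h2 := hσ Ω (γ : Ω →ₐ[ZMod p] Ω) z
      have h3 : γ (lin p l z) = lin p l (γ z) := h2
      rw [← h3, hy', hγx, sub_self]
    have h2 : γ z = z + (γ z - z) := by ring
    rw [h2, map_add, P2Com.fix_geo hδ hk, hδz]

theorem okW_one {a : Atom p} (ha : a.Ok) : OkW [a] := by
  intro b hb
  rw [List.mem_singleton] at hb
  rw [hb]
  exact ha

/-- One atom. -/
theorem one {x : Ω} {G : Type} [Group G] [Finite G] {ψ : Gx p x →* G} {G₀ : Subgroup G}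
    (hψ : RDr p x ψ G₀) (a : Atom p) (ha : a.Ok) {z : Ω} (hz : a.ev z = x)
    (h : Gx p z ≤ Gx p x) : RDr p z (rs h ψ) G₀ := by
  have hst : IsStage p x := hψ.stage
  have hstz : IsStage p z := (k2Stg p Ω x hst [a] (okW_one ha) z hz).1
  have hmem : ∀ γ : Gx p z, (γ : Ω ≃ₐ[ZMod p] Ω) ∈ geo p Ω → rs h ψ γ ∈ G₀ :=
    fun γ hγ => hψ.mem ⟨γ.1, h γ.2⟩ hγ
  have hreg : ∀ g ∈ G₀, ∃ γ : Gx p z, (γ : Ω ≃ₐ[ZMod p] Ω) ∈ geo p Ω ∧ rs h ψ γ = g := by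
    by_cases htop : P2RDW.im (rs h ψ) = G₀
    · intro g hg
      rw [← htop] at hg
      exact P2RDW.mem_im.1 hg
    · exfalso
      have hle : P2RDW.im (rs h ψ) ≤ G₀ := by
        intro g hg
        obtain ⟨γ, h1, rfl⟩ := P2RDW.mem_im.1 hg
        exact hmem γ h1
      have hnorm : (P2RDW.im (rs h ψ)).Normal := by
        refine ⟨fun n hn g => ?_⟩
        obtain ⟨δ, hδ, rfl⟩ := P2RDW.mem_im.1 hn
        obtain ⟨γ, rfl⟩ := hψ.surj g
        have h1 : (γ : Ω ≃ₐ[ZMod p] Ω) * δ * (γ : Ω ≃ₐ[ZMod p] Ω)⁻¹ ∈ Gx p z := by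
          rw [mem_Gx]
          have h2 := fix_conj hst a ha hz (inv_mem γ.2) hδ (mem_Gx.1 δ.2)
          change (γ : Ω ≃ₐ[ZMod p] Ω) ((δ : Ω ≃ₐ[ZMod p] Ω)
            ((γ : Ω ≃ₐ[ZMod p] Ω)⁻¹ z)) = z
          rw [h2]
          exact AlgEquiv.apply_symm_apply _ _
        rw [P2RDW.mem_im]
        refine ⟨⟨_, h1⟩, Den_geo_normal.conj_mem _ hδ _, ?_⟩
        rw [rs_apply]
        have h3 : (⟨(γ : Ω ≃ₐ[ZMod p] Ω) * δ * (γ : Ω ≃ₐ[ZMod p] Ω)⁻¹, h h1⟩ : Gx p x) =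
            γ * ⟨δ.1, h δ.2⟩ * γ⁻¹ := rfl
        rw [h3, map_mul, map_mul, map_inv]
        rfl
      have hcomm : ∀ g ∈ G₀, ∀ k ∈ G₀, g * k * g⁻¹ * k⁻¹ ∈ P2RDW.im (rs h ψ) := by
        intro g hg k hk
        obtain ⟨γ, hγg, rfl⟩ := hψ.reg g hg
        obtain ⟨δ, hδg, rfl⟩ := hψ.reg k hk
        rw [P2RDW.mem_im]
        have hκ : ((γ : Ω ≃ₐ[ZMod p] Ω) * δ * (γ : Ω ≃ₐ[ZMod p] Ω)⁻¹ *
            (δ : Ω ≃ₐ[ZMod p] Ω)⁻¹) ∈ Gx p z := by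
          rw [mem_Gx]
          have hc := k2Com p Ω x hst a ha z hz (γ : Ω ≃ₐ[ZMod p] Ω)⁻¹
            (Subgroup.mem_inf.2 ⟨inv_mem γ.2, inv_mem hγg⟩) (δ : Ω ≃ₐ[ZMod p] Ω)⁻¹
            (Subgroup.mem_inf.2 ⟨inv_mem δ.2, inv_mem hδg⟩)
          change (γ : Ω ≃ₐ[ZMod p] Ω) ((δ : Ω ≃ₐ[ZMod p] Ω)
            ((γ : Ω ≃ₐ[ZMod p] Ω)⁻¹ ((δ : Ω ≃ₐ[ZMod p] Ω)⁻¹ z))) = z
          rw [hc]
          have e1 : ∀ w, (δ : Ω ≃ₐ[ZMod p] Ω) ((δ : Ω ≃ₐ[ZMod p] Ω)⁻¹ w) = w := fun w =>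
            AlgEquiv.apply_symm_apply _ w
          have e2 : ∀ w, (γ : Ω ≃ₐ[ZMod p] Ω) ((γ : Ω ≃ₐ[ZMod p] Ω)⁻¹ w) = w := fun w =>
            AlgEquiv.apply_symm_apply _ w
          rw [e1, e2]
        refine ⟨⟨_, hκ⟩, mul_mem (mul_mem (mul_mem hγg hδg) (inv_mem hγg)) (inv_mem hδg), ?_⟩
        rw [rs_apply]
        have : (⟨(γ : Ω ≃ₐ[ZMod p] Ω) * δ * (γ : Ω ≃ₐ[ZMod p] Ω)⁻¹ *
            (δ : Ω ≃ₐ[ZMod p] Ω)⁻¹, h hκ⟩ : Gx p x) = γ * δ * γ⁻¹ * δ⁻¹ := rfl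
        rw [this, map_mul, map_mul, map_mul, map_inv, map_inv]
      obtain ⟨c, hc, V, hV, hov, γ, hγ, hγN⟩ := hψ.ram _ hnorm hle htop hcomm
      obtain ⟨b, -, -, -, hfix⟩ := k2InA p Ω x hst a ha z hz V hV c hov.1 hc hov.2
      have hγz : (γ : Ω ≃ₐ[ZMod p] Ω) z = z := hfix γ ⟨γ.2, hγ⟩
      refine hγN ?_
      rw [P2RDW.mem_im]
      exact ⟨⟨γ, mem_Gx.2 hγz⟩, hγ.1, rfl⟩
  refine
    { stage := hstz
      fin := P2RDW.fin_rs h hψ.fin
      surj := surj hstz h hψ.toRr hreg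
      mem := hmem
      reg := hreg
      ram := ?_ }
  intro N hN h1 h2 h3
  obtain ⟨c, hc, hram⟩ := hψ.ram N hN h1 h2 h3
  exact k2Keep p Ω x hst G ψ N c hc hram [a] (okW_one ha) z hz h

/-- **(II.1).** -/
theorem rdw (w : List (Atom p)) : ∀ {x : Ω} {G : Type} [Group G] [Finite G] {ψ : Gx p x →* G}
    {G₀ : Subgroup G}, RDr p x ψ G₀ → OkW w → ∀ y : Ω, ev w y = x → ∀ h : Gx p y ≤ Gx p x,
    RDr p y (rs h ψ) G₀ := by
  induction w with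
  | nil =>
    intro x G _ _ ψ G₀ hψ _ y hy h
    obtain rfl : y = x := hy
    rwa [rs_self]
  | cons a w ih =>
    intro x G _ _ ψ G₀ hψ hw y hy h
    have ha : a.Ok := hw a (List.mem_cons_self ..)
    have hw' : OkW w := fun b hb => hw b (List.mem_cons_of_mem _ hb)
    have hz : a.ev (ev w y) = x := hy
    have hst : IsStage p x := hψ.stage
    have h1 := k2Stg p Ω x hst [a] (okW_one ha) (ev w y) hz
    have h2 := one hψ a ha hz h1.2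
    have h3 := k2Stg p Ω (ev w y) h1.1 w hw' y rfl
    have h4 := ih h2 hw' y rfl h3.2
    rwa [rs_rs] at h4

/-- Powers. -/
theorem powS {x : Ω} {G : Type} [Group G] [Finite G] {ψ : Gx p x →* G} {G₀ : Subgroup G}
    (hR : Rr p x ψ G₀) (m : ℕ) (hmp : m.Coprime p) (hmG : m.Coprime (Nat.card G)) (z : Ω)
    (hz : z ^ m = x) (h : Gx p z ≤ Gx p x) : Rr p z (rs h ψ) G₀ := by
  have hm : 0 < m := by
    rcases Nat.eq_zero_or_pos m with h0 | h0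
    · rw [h0, Nat.coprime_zero_left] at hmp
      exact absurd hmp (Fact.out : p.Prime).one_lt.ne'
    · exact h0
  have hx : x ≠ 0 := by
    intro h0
    apply hR.stage.transc
    rw [h0]
    exact isAlgebraic_zero
  have hmG₀ : m.Coprime (Nat.card G₀) :=
    Nat.Coprime.coprime_dvd_right (Subgroup.card_subgroup_dvd_card G₀) hmG
  have hstz := BC_stage hR.stage hz
  have hreg : ∀ g ∈ G₀, ∃ γ : Gx p z, (γ : Ω ≃ₐ[ZMod p] Ω) ∈ geo p Ω ∧ rs h ψ γ = g := by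
    intro g hg
    obtain ⟨g₁, hg₁⟩ : ∃ g₁ : G₀, g₁ ^ m = ⟨g, hg⟩ :=
      ⟨(powCoprime hmG₀.symm).symm ⟨g, hg⟩, (powCoprime hmG₀.symm).apply_symm_apply _⟩
    obtain ⟨γ, hγ, hγg⟩ := hR.reg g₁ g₁.2
    have hfix : ((γ : Ω ≃ₐ[ZMod p] Ω) ^ m) z = z :=
      P2PowS.pow_fix hm hz hx hγ (mem_Gx.1 γ.2)
    refine ⟨⟨(γ : Ω ≃ₐ[ZMod p] Ω) ^ m, mem_Gx.2 hfix⟩, pow_mem hγ m, ?_⟩
    rw [rs_apply]
    have h1 : (⟨(γ : Ω ≃ₐ[ZMod p] Ω) ^ m, h (mem_Gx.2 hfix)⟩ : Gx p x) = γ ^ m := rfl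
    rw [h1, map_pow, hγg]
    exact congrArg Subtype.val hg₁
  exact
    { stage := hstz
      fin := P2RDW.fin_rs h hR.fin
      surj := surj hstz h hR hreg
      mem := fun γ hγ => hR.mem ⟨γ.1, h γ.2⟩ hγ
      reg := hreg }

/-- Translations and inversion. -/
theorem mob {x y : Ω} {G : Type} [Group G] {ψ : Gx p x →* G} {G₀ : Subgroup G}
    (hR : Rr p x ψ G₀) (h : Gx p y ≤ Gx p x) (hyx : y + 1 = x ∨ y⁻¹ = x) :
    Rr p y (rs h ψ) G₀ := by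
  have key : Gx p x ≤ Gx p y := by
    intro γ hγ
    rw [mem_Gx] at hγ ⊢
    rcases hyx with hyx | hyx
    · rw [← hyx, map_add, map_one] at hγ
      exact add_right_cancel hγ
    · rw [← hyx, map_inv₀] at hγ
      exact inv_injective hγ
  have hst : IsStage p y := by
    rcases hyx with hyx | hyx
    · refine (k2Stg p Ω x hR.stage [Atom.tr 1] (okW_one (P2Six.ok_tr 1)) y ?_).1
      rw [ev_cons, ev_nil, Atom.ev, map_one]
      exact hyx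
    · refine (k2Stg p Ω x hR.stage [Atom.inv] (okW_one P2Six.ok_inv) y ?_).1
      rw [ev_cons, ev_nil, Atom.ev]
      exact hyx
  exact
    { stage := hst
      fin := P2RDW.fin_rs h hR.fin
      surj := fun g => by
        obtain ⟨γ, hg⟩ := hR.surj g
        exact ⟨⟨γ.1, key γ.2⟩, hg⟩
      mem := fun γ hγ => hR.mem ⟨γ.1, h γ.2⟩ hγ
      reg := fun g hg => by
        obtain ⟨γ, hγ, hg⟩ := hR.reg g hg
        exact ⟨⟨γ.1, key γ.2⟩, hγ, hg⟩ }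

end

end Rel

end MP7K
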