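import Pool.Agent.Lib.MP_7f581e_K.R.Defs
import Pool.Agent.Lib.MP_7f581e_K.DefsG
import Pool.Agent.Lib.MP_7f581e_ntE.General

/-!
# C36 (MP_7f581e_nt): closure over `k(X)` for all finite fields `k`, without regularity

GOAL.  `k` a finite field of characteristic `p`, `N` normal in `G` with composition factors in
`IsKernelFactor p`: if `G ⧸ N` is a Galois group over `k(X)`, then so is `G`.

PLAN.  (1) *Lifting form over the prime field* (`LiftW p f` below): given a surjective
`ψ : Gx p x →* G` (not regular) and `f : E →* G` onto with kernel factors as above there are `y` with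
`Gx p y ≤ Gx p x` and a surjective `ψ' : Gx p y →* E` with `f ∘ ψ' = ψ`.  The steps: kernel abelian of
exponent `ℓ ≠ p` (`StartWr`, `WeakWr`, split embedding problems; helper93), `p`-groups and factors at the
bottom (`SolvH` below), Lie types (Lang torsors; helper93), GA realisations (`GALiftStmt`, helper89).
(2) *From `𝔽_p` to `k`*: `IndStmt`: a realization of `G` over `k(x)` gives one over `𝔽_p(x)` of a subgroup
of the wreath product, and a lift of the latter gives a lift of the former.  `ToHomStmt`, `OfHomStmt`: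
`Occurs G (RatFunc k)` in the homomorphism language.

One Lean task for each `def XStmt : Prop`: file `MP_7f581e_K/R/X.lean`, import this file, theorem
`MP7K.rX : XStmt`.
-/

set_option autoImplicit false

namespace MP7K

open MP7Z MP7fR

/-- The embedding problem `f` can be solved properly after a base change from `𝔽_p(x)` to
`𝔽_p(y)`. -/
def LiftW (p : ℕ) [Fact p.Prime] {E G : Type} [Group E] [Group G] (f : E →* G) : Prop :=
  ∀ (Ω : Type) [Field Ω] [Algebra (ZMod p) Ω] (x : Ω), IsStage p x →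
    ∀ ψ : Gx p x →* G, FinLevel ψ → Function.Surjective ψ →
    ∃ (y : Ω) (hle : Gx p y ≤ Gx p x) (ψ' : Gx p y →* E), IsStage p y ∧ FinLevel ψ' ∧
      Function.Surjective ψ' ∧ ∀ γ : Gx p y, f (ψ' γ) = ψ ⟨γ, hle γ.2⟩

/-- The absolute Galois group of `κ(x)`, `κ` a subfield of the constants. -/
abbrev Gk (p : ℕ) [Fact p.Prime] {Ω : Type} [Field Ω] [Algebra (ZMod p) Ω] (x : Ω)
    (κ : IntermediateField (ZMod p) Ω) : Subgroup (Ω ≃ₐ[ZMod p] Ω) := Gx p x ⊓ Fx p (κ : Set Ω)

theorem Gk_le {p : ℕ} [Fact p.Prime] {Ω : Type} [Field Ω] [Algebra (ZMod p) Ω] {x y : Ω}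
    (κ : IntermediateField (ZMod p) Ω) (h : Gx p y ≤ Gx p x) : Gk p y κ ≤ Gk p x κ :=
  inf_le_inf_right _ h

/-- **SolvH.** (100 lines)  Solutions of embedding problems over `𝔽_p(X)` in the homomorphism language.

*Proof.*  `K = RatFunc (ZMod p)` acts on `Ω` by `emb hst.transc` (see `V/Conv.lean`, `F/Close.lean`:
`occurs_of_surj`; `isGalois_emb`, and the homomorphism `toG : Gal(Ω/K) →* Gx p x`, which is onto and
bijective); `M ⊂ Ω` = the fixed field of the kernel of `ψ ∘ toG`, `Gal(M/K) ≃* G` (as in `reg_gal`,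
`Z/Fin/Reg.lean`, whose proof gives also that `γ|M` corresponds to `ψ γ`: state a version with this
compatibility).  `Solves` (with `M`, `i`) gives `L`, `e'`, `j : M →+* L`.  `L / M` is separable algebraic, so
there is an `M`-embedding `L → Ω` (`IsSepClosed.lift`), `γ ↦ γ|L` gives `ψ'`; surjective because every
automorphism of `L / K` extends to `Ω` (`AlgEquiv.restrictNormalHom_surjective`); finite level: a basis
of `L / K`. -/
def SolvHStmt : Prop :=
  ∀ (p : ℕ) [Fact p.Prime] (E G : Type) [Group E] [Finite E] [Group G] [Finite G] (f : E →* G),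
    MP7fE.Solves (RatFunc (ZMod p)) f →
    ∀ (Ω : Type) [Field Ω] [Algebra (ZMod p) Ω] (x : Ω), IsStage p x →
    ∀ ψ : Gx p x →* G, FinLevel ψ → Function.Surjective ψ →
    ∃ ψ' : Gx p x →* E, FinLevel ψ' ∧ Function.Surjective ψ' ∧ ∀ γ, f (ψ' γ) = ψ γ

/-- **Ind.** (200 lines)  From `κ(x)` to `𝔽_p(x)` by induction.

*Proof.*  `𝔾 = Gx p x`, `Γ = Gk p x κ` (as a subgroup of `𝔾`: normal, because `κ` is finite, so
`γ κ = κ` for all `γ`: `κ` consists of the roots of `X ^ (card κ) - X`; of finite index: a subgroup of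
`𝔾` contains `Γ`-cosets according to the restriction to the finite set `κ`).  `I = 𝔾 ⧸ Γ`, finite, with
`𝔾` acting on the left; `t : I → 𝔾` a section with `t 1 = 1` (`Quotient.out`, corrected at `1`).
`W Q = (I → Q) ⋊ Perm I` with `(π q)(i) = q (π⁻¹ i)`; for `γ ∈ 𝔾` let
`Ind γ = (i ↦ ρ (t i)⁻¹ γ (t (γ⁻¹ i)), i ↦ γ i)`; a homomorphism `𝔾 → W G`, of finite level (if `γ ∈ Γ` and
`γ` fixes the finitely many elements `t i s`, `s ∈ S`, then `(t i)⁻¹ γ (t i)` fixes `S`).
`G' = range Ind`, `ψ = Ind`.  `W f : W E → W G` is onto, with kernel `≃* (I → ker f)`; `E'` = the preimage of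
`G'`, `f'` = the restriction of `W f`.  Let `ψ'` lift `ψ` on `Gx p y`.  For `γ ∈ Gk p y κ` the permutation
of `ψ' γ` is that of `Ind γ`, it fixes `1 ∈ I`.  `ρ' γ` = the component of `ψ' γ` at `1`: a homomorphism,
`f (ρ' γ)` = component of `Ind γ` at `1` = `ρ γ`.  Onto: `e : E`, `f e = ρ γ₀`, `γ₀ ∈ Gk p x κ`; some
element of `E'` has the component `e` at `1` and maps to `Ind γ₀` (choose the other components); it is
`ψ' γ`, `γ ∈ Gx p y`, and `γ 1 = γ₀ 1 = 1` in `I`, so `γ ∈ Gk p y κ`, `ρ' γ = e`.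
(`Nonempty (f'.ker ≃* (Fin n → f.ker))`: `I ≃ Fin n`.) -/
def IndStmt : Prop :=
  ∀ (p : ℕ) [Fact p.Prime] (Ω : Type) [Field Ω] [Algebra (ZMod p) Ω] (x : Ω), IsStage p x →
    ∀ (κ : IntermediateField (ZMod p) Ω), Finite κ →
    ∀ (E G : Type) [Group E] [Finite E] [Group G] [Finite G] (f : E →* G), Function.Surjective f →
    ∀ ρ : Gk p x κ →* G, FinLevel ρ → Function.Surjective ρ →
    ∃ (n : ℕ) (E' G' : Type) (_ : Group E') (_ : Finite E') (_ : Group G') (_ : Finite G')
      (f' : E' →* G') (ψ : Gx p x →* G'), Function.Surjective f' ∧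
      Nonempty (f'.ker ≃* (Fin n → f.ker)) ∧ FinLevel ψ ∧ Function.Surjective ψ ∧
      ∀ (y : Ω) (hle : Gx p y ≤ Gx p x) (ψ' : Gx p y →* E'), FinLevel ψ' →
        Function.Surjective ψ' → (∀ γ : Gx p y, f' (ψ' γ) = ψ ⟨γ, hle γ.2⟩) →
        ∃ ρ' : Gk p y κ →* E, FinLevel ρ' ∧ Function.Surjective ρ' ∧
          ∀ γ : Gk p y κ, f (ρ' γ) = ρ ⟨γ, Gk_le κ hle γ.2⟩

/-- **ToHom.** (120 lines)  A Galois group over `k(X)` in the homomorphism language (`Om p`, `xx p`:
`MP_7f581e_Z/Top/Emb.lean` or where `Top.tEmb` is).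

*Proof.*  `Ω = Om p`, `x = xx p`.  `k` is an algebra over `ZMod p`, algebraic and separable: `τ : k →ₐ Ω`
(`IsSepClosed.lift`), `κ = τ.fieldRange`.  `x` is transcendental over `k`: `emb' : RatFunc k → Ω`, `X ↦ x`
(as `emb`, use `RatFunc.liftAlgHom` / `IsFractionRing.lift`).  `L / RatFunc k` finite Galois with group
`G`: embed in `Ω` (`IsSepClosed.lift`); `γ ∈ Gk p x κ` fixes the image of `RatFunc k`, so it acts on the
image of `L` (normal): `ρ`.  As in `Top.tEmb`. -/
def ToHomStmt : Prop :=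
  ∀ (p : ℕ) [Fact p.Prime] (k : Type) [Field k] [Finite k] [CharP k p] (G : Type) [Group G],
    Occurs G (RatFunc k) →
    ∃ (Ω : Type) (_ : Field Ω) (_ : Algebra (ZMod p) Ω) (x : Ω) (κ : IntermediateField (ZMod p) Ω)
      (ρ : Gk p x κ →* G), IsStage p x ∧ Nonempty (k ≃+* κ) ∧ FinLevel ρ ∧ Function.Surjective ρ

/-- **OfHom.** (120 lines)  The converse.

*Proof.*  As `occurs_of_surj` in `F/Close.lean`, with `RatFunc k` in place of `RatFunc (ZMod p)`. -/
def OfHomStmt : Prop :=
  ∀ (p : ℕ) [Fact p.Prime] (k : Type) [Field k] [Finite k] [CharP k p] (Ω : Type) [Field Ω]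
    [Algebra (ZMod p) Ω] (x : Ω) (κ : IntermediateField (ZMod p) Ω) (G : Type) [Group G]
    (ρ : Gk p x κ →* G), IsStage p x → Nonempty (k ≃+* κ) → FinLevel ρ → Function.Surjective ρ →
    Occurs G (RatFunc k)

/-- **GALift.** (helper89)  The step for GA realisations, in lifting form.

*Proof.*  As `occurs_ga` in `G5/Main.lean`: `LiftW` for `G' → E ⧸ N` (solvable kernel) gives
`Gx p y →* G'`, and `Solves` for `f' : E' → G'` and *SolvH* give `Gx p y →* E'`, then compose with
`π : E' → E` (`h ∘ f' = mk ∘ π`). -/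
def GALiftStmt : Prop :=
  ∀ (p : ℕ) [Fact p.Prime],
    (∀ (E G : Type) [Group E] [Finite E] [Group G] [Finite G] (f : E →* G),
      Function.Surjective f → Group.IsSolvable f.ker → LiftW p f) →
    ∀ (E G : Type) [Group E] [Finite E] [Group G] [Finite G] (f : E →* G), Function.Surjective f →
    ∀ (S : Type) [Group S] [Finite S] (κ : Type) [Finite κ], HasGA p S →
      Nonempty (f.ker ≃* (κ → S)) → LiftW p f

end MP7K
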