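import Pool.Agent.Lib.MP_7f581e_K.R.P2r
import Pool.Agent.Lib.MP_7f581e_Z.EPP.Pole

/-!
# C36, Part II for realizations which need not be regular: ramification
-/

set_option autoImplicit false

namespace MP7K

open MP7Z P2Unr

namespace Rel

/-- **Unr**, relative version. -/
theorem unr (p : ℕ) [Fact p.Prime] (Ω : Type) [Field Ω] [Algebra (ZMod p) Ω] (x : Ω)
    (G : Type) [Group G] (ψ : Gx p x →* G) (hst : IsStage p x) (hfin : FinLevel ψ)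
    (N G₀ : Subgroup G) (ℓ : ℕ)
    (hmem : ∀ γ : Gx p x, (γ : Ω ≃ₐ[ZMod p] Ω) ∈ geo p Ω → ψ γ ∈ G₀)
    (hnm : ∀ g ∈ G₀, ∀ n ∈ N, g * n * g⁻¹ ∈ N) (hpow : ∀ g ∈ G₀, g ^ ℓ ∈ N)
    (hcyc : ∀ g ∈ G₀, g ∉ N → ∀ h ∈ G₀, ∃ i : ℤ, (g ^ i)⁻¹ * h ∈ N)
    (γ₀ : Gx p x) (hγ₀ : (γ₀ : Ω ≃ₐ[ZMod p] Ω) ∈ geo p Ω) (hg : ψ γ₀ ∉ N)
    (hin : ∀ V : ValuationSubring Ω, V ≠ ⊤ → ∀ γ : Gx p x,
      (γ : Ω ≃ₐ[ZMod p] Ω) ∈ Inert p V → ψ γ ∈ N) :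
    ∃ (K : IntermediateField (Cst p Ω) Ω) (h0 : IntermediateField.adjoin (Cst p Ω) {x} ≤ K)
      (τ : K ≃ₐ[Cst p Ω] K),
      (∀ f, (τ ^ ℓ) f = f) ∧ (∃ f, τ f ≠ f) ∧
      (∀ f : IntermediateField.adjoin (Cst p Ω) {x},
        τ (IntermediateField.inclusion h0 f) = IntermediateField.inclusion h0 f) ∧
      (∀ f : K, τ f = f → (f : Ω) ∈ IntermediateField.adjoin (Cst p Ω) {x}) ∧
      ∀ v : Place (Cst p Ω) (IntermediateField.adjoin (Cst p Ω) {x}),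
        ∃ v' : Place (Cst p Ω) K, ∀ f : IntermediateField.adjoin (Cst p Ω) {x},
          v'.pord (IntermediateField.inclusion h0 f) = v.pord f := by
  have hC : IsAlgClosed (Cst p Ω) := br_cst p Ω x hst
  set K₀ := IntermediateField.adjoin (Cst p Ω) {x} with hK₀
  have hxK₀ : x ∈ K₀ := IntermediateField.mem_adjoin_simple_self _ _
  obtain ⟨S, hS⟩ := hfin
  -- the level `K`
  have hH1 : HN ψ N ≤ Fx p (insert x (Cst p Ω : Set Ω)) := by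
    intro γ hγ
    obtain ⟨h1, h2, -⟩ := mem_HN.1 hγ
    rw [mem_Fx]
    rintro a (rfl | ha)
    · exact mem_Gx.1 h2
    · exact h1 a ha
  have hH2 : Fx p (insert x (Cst p Ω : Set Ω) ∪ S) ≤ HN ψ N := by
    intro γ hγ
    rw [mem_Fx] at hγ
    rw [mem_HN]
    refine ⟨fun c hc => hγ c (Or.inl (Or.inr hc)), ?_, ?_⟩
    · rw [mem_Gx]
      exact hγ x (Or.inl (Or.inl rfl))
    · rw [hS _ (fun s hs => hγ s (Or.inr hs))]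
      exact N.one_mem
  obtain ⟨K, hKl, hKH, hKmem, hKn⟩ := br_gal p Ω x hst (HN ψ N) S hH1 hH2
  have hnorm : ∀ h, h ∈ HN ψ N ↔ (γ₀ : Ω ≃ₐ[ZMod p] Ω) * h * (γ₀ : Ω ≃ₐ[ZMod p] Ω)⁻¹ ∈ HN ψ N := by
    have key : ∀ (δ : Gx p x), (δ : Ω ≃ₐ[ZMod p] Ω) ∈ geo p Ω → ∀ h, h ∈ HN ψ N →
        (δ : Ω ≃ₐ[ZMod p] Ω) * h * (δ : Ω ≃ₐ[ZMod p] Ω)⁻¹ ∈ HN ψ N := by
      intro δ hδ h hh
      obtain ⟨h1, h2, h3⟩ := mem_HN.1 hh
      rw [mem_HN]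
      refine ⟨mul_mem (mul_mem hδ h1) (inv_mem hδ), mul_mem (mul_mem δ.2 h2) (inv_mem δ.2), ?_⟩
      have h4 := hnm _ (hmem δ hδ) _ h3
      rw [← map_mul, ← map_inv, ← map_mul] at h4
      exact h4
    intro h
    refine ⟨key γ₀ hγ₀ h, fun hh => ?_⟩
    have h1 := key γ₀⁻¹ (inv_mem hγ₀) _ hh
    have h2 : ((γ₀⁻¹ : Gx p x) : Ω ≃ₐ[ZMod p] Ω) *
        ((γ₀ : Ω ≃ₐ[ZMod p] Ω) * h * (γ₀ : Ω ≃ₐ[ZMod p] Ω)⁻¹) *
        ((γ₀⁻¹ : Gx p x) : Ω ≃ₐ[ZMod p] Ω)⁻¹ = h := by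
      rw [Subgroup.coe_inv]
      group
    rwa [h2] at h1
  have hK₀K : K₀ ≤ K := by
    intro f hf
    rw [hKmem]
    intro γ hγ
    obtain ⟨h1, h2, -⟩ := mem_HN.1 hγ
    exact BC_fix γ h1 (mem_Gx.1 h2) f hf
  refine ⟨K, hK₀K, restr K γ₀ hγ₀ (hKn γ₀ hnorm), ?_, ?_, ?_, ?_, ?_⟩
  · -- order
    intro f
    apply Subtype.ext
    rw [restr_pow]
    have h1 : (γ₀ : Ω ≃ₐ[ZMod p] Ω) ^ ℓ ∈ HN ψ N := by
      rw [mem_HN]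
      refine ⟨pow_mem hγ₀ _, pow_mem γ₀.2 _, ?_⟩
      have h2 := hpow (ψ γ₀) (hmem γ₀ hγ₀)
      rw [← map_pow] at h2
      exact h2
    exact (hKmem f).1 f.2 _ h1
  · -- not trivial
    by_contra hcon
    push Not at hcon
    apply hg
    have h1 : (γ₀ : Ω ≃ₐ[ZMod p] Ω) ∈ Fx p (K : Set Ω) := by
      rw [mem_Fx]
      intro f hf
      have h2 := hcon ⟨f, hf⟩
      exact congrArg Subtype.val h2
    rw [hKH, mem_HN] at h1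
    obtain ⟨-, h2, h3⟩ := h1
    exact h3
  · -- `K₀` is fixed
    intro f
    apply Subtype.ext
    rw [restr_apply]
    exact BC_fix (γ₀ : Ω ≃ₐ[ZMod p] Ω) hγ₀ (mem_Gx.1 γ₀.2) f f.2
  · -- fixed elements
    intro f hf
    have hf0 : (γ₀ : Ω ≃ₐ[ZMod p] Ω) (f : Ω) = f := congrArg Subtype.val hf
    apply mem_of_fixed hst
    rintro γ ⟨hγ1, hγ2⟩
    obtain ⟨i, hi⟩ := hcyc (ψ γ₀) (hmem γ₀ hγ₀) hg (ψ ⟨γ, hγ1⟩) (hmem ⟨γ, hγ1⟩ hγ2)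
    rw [← map_zpow, ← map_inv, ← map_mul] at hi
    have h2 : ((γ₀ : Ω ≃ₐ[ZMod p] Ω) ^ i)⁻¹ * γ ∈ HN ψ N := by
      rw [mem_HN]
      refine ⟨mul_mem (inv_mem (zpow_mem hγ₀ i)) hγ2,
        mul_mem (inv_mem (zpow_mem γ₀.2 i)) hγ1, hi⟩
    have h3 := (hKmem f).1 f.2 _ h2
    have h4 : (γ₀ : Ω ≃ₐ[ZMod p] Ω) ^ i ∈ Gx p (f : Ω) :=
      zpow_mem (mem_Gx.2 hf0) i
    change (((γ₀ : Ω ≃ₐ[ZMod p] Ω) ^ i)).symm (γ (f : Ω)) = f at h3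
    rw [AlgEquiv.symm_apply_eq, mem_Gx.1 h4] at h3
    exact h3
  · -- places
    intro v
    have hK₀l : IsLevel p x K₀ := BC_isLevel x x 1 (pow_one x)
    obtain ⟨V, hV, hb⟩ := br_abv p Ω x hst K₀ hK₀l v
    obtain ⟨v', hb', -, -⟩ := br_bel p Ω x hst K hKl V hV
    refine ⟨v', fun f => ?_⟩
    refine (br_ram p Ω x hst K₀ K hK₀K hK₀l hKl V hV v v' hb hb').2 ?_ f
    rintro γ ⟨hγ1, hγ2⟩
    have h1 : γ ∈ Gx p x := by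
      rw [mem_Gx]
      exact hγ1 x hxK₀
    have h2 : γ ∈ geo p Ω := fun c hc => hγ1 c (K₀.algebraMap_mem (⟨c, hc⟩ : Cst p Ω))
    rw [hKH, mem_HN]
    exact ⟨h2, h1, hin V hV ⟨γ, h1⟩ ⟨h2, hγ2⟩⟩

/-- **SS**, relative version. -/
theorem ss {p : ℕ} [Fact p.Prime] {Ω : Type} [Field Ω] [Algebra (ZMod p) Ω] {x : Ω}
    {G : Type} [Group G] [Finite G] {ψ : Gx p x →* G} {G₀ : Subgroup G} (hψ : Rr p x ψ G₀)
    (N : Subgroup G) (hle : N ≤ G₀) (hne : N ≠ G₀)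
    (hcomm : ∀ g ∈ G₀, ∀ h ∈ G₀, g * h * g⁻¹ * h⁻¹ ∈ N) : ∃ c : Option Ω, RamAt p x ψ N c := by
  have hst := hψ.stage
  -- a subgroup of prime index
  obtain ⟨N₁, hN₁, hℓ, hN₁le⟩ := k2Grp G₀ (N.subgroupOf G₀) (by
    intro h
    apply hne
    apply le_antisymm hle
    intro g hg
    have h1 : (⟨g, hg⟩ : G₀) ∈ N.subgroupOf G₀ := by rw [h]; exact Subgroup.mem_top _
    exact h1) (fun g h => hcomm g g.2 h h.2)
  have hmem' : ∀ g, g ∈ N₁.map G₀.subtype ↔ ∃ h : g ∈ G₀, (⟨g, h⟩ : G₀) ∈ N₁ := by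
    intro g
    constructor
    · rintro ⟨a, ha, rfl⟩
      exact ⟨a.2, ha⟩
    · rintro ⟨h, h'⟩
      exact ⟨⟨g, h⟩, h', rfl⟩
  by_contra hno
  rw [not_exists] at hno
  have key : ∀ V : ValuationSubring Ω, V ≠ ⊤ → ∀ γ : Gx p x,
      (γ : Ω ≃ₐ[ZMod p] Ω) ∈ Inert p V → ψ γ ∈ N := by
    intro V hV γ hγ
    by_contra hcon
    by_cases hx : x ∈ V
    · obtain ⟨c, hc, hxc, -⟩ := (br_res p Ω x hst V hV).2.2.1 x hx
      exact hno (some c) ⟨V, hV, ⟨hc, hxc⟩, γ, hγ, hcon⟩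
    · exact hno none ⟨V, hV, hx, γ, hγ, hcon⟩
  have hNN : N ≤ N₁.map G₀.subtype := by
    intro g hg
    rw [hmem']
    exact ⟨hle hg, hN₁le hg⟩
  have hNtop : N₁ ≠ ⊤ := by
    rintro rfl
    rw [Subgroup.index_top] at hℓ
    exact Nat.not_prime_one hℓ
  obtain ⟨g, hg⟩ : ∃ g : G₀, g ∉ N₁ := by
    by_contra hcon
    push Not at hcon
    exact hNtop ((Subgroup.eq_top_iff' N₁).2 hcon)
  obtain ⟨γ₀, hγ₀, hγ₀g⟩ := hψ.reg g g.2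
  have : Fact N₁.index.Prime := ⟨hℓ⟩
  obtain ⟨K, h0, τ, h1, ⟨f, hf⟩, h2, h3, h4⟩ := unr p Ω x G ψ hst hψ.fin (N₁.map G₀.subtype) G₀
    N₁.index hψ.mem
    (by
      intro g hg n hn
      obtain ⟨h, h'⟩ := (hmem' n).1 hn
      rw [hmem']
      exact ⟨mul_mem (mul_mem hg h) (inv_mem hg), hN₁.conj_mem _ h' ⟨g, hg⟩⟩)
    (by
      intro g hg
      rw [hmem']
      exact ⟨pow_mem hg _, Subgroup.pow_index_mem N₁ ⟨g, hg⟩⟩)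
    (by
      intro g hg hgN h hh
      have hq : (QuotientGroup.mk (⟨g, hg⟩ : G₀) : G₀ ⧸ N₁) ≠ 1 := by
        intro h1
        rw [QuotientGroup.eq_one_iff] at h1
        exact hgN ((hmem' g).2 ⟨hg, h1⟩)
      have h1 : (QuotientGroup.mk (⟨h, hh⟩ : G₀) : G₀ ⧸ N₁) ∈
          Subgroup.zpowers (QuotientGroup.mk (⟨g, hg⟩ : G₀)) :=
        mem_zpowers_of_prime_card (p := N₁.index) rfl hq
      obtain ⟨i, hi⟩ := Subgroup.mem_zpowers_iff.1 h1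
      rw [← QuotientGroup.mk_zpow, QuotientGroup.eq] at hi
      refine ⟨i, (hmem' _).2 ⟨mul_mem (inv_mem (zpow_mem hg i)) hh, hi⟩⟩)
    γ₀ hγ₀ (by
      rw [hγ₀g]
      intro h
      obtain ⟨h1, h2⟩ := (hmem' _).1 h
      exact hg h2) (fun V hV γ hγ => hNN (key V hV γ hγ))
  have hL : IsLevel p x (IntermediateField.adjoin (Cst p Ω) {x}) :=
    BC_isLevel (p := p) x x 1 (pow_one x)
  have : IsAlgClosed (Cst p Ω) := br_cst p Ω x hst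
  have : CharP (Cst p Ω) p :=
    charP_of_injective_algebraMap (algebraMap (ZMod p) (Cst p Ω)).injective p
  obtain ⟨hcf, htr, -⟩ := (br_lvl p Ω x hst).1 _ hL
  refine hf (k2SC p (Cst p Ω) (IntermediateField.adjoin (Cst p Ω) {x}) K
    (IntermediateField.inclusion h0) ⟨x, hL.mem⟩ htr ?_ τ N₁.index hℓ h1 h2 ?_ h4 f)
  · exact EPP.PoleAux.adjoin_gen_eq_top x
  · intro g hg
    exact ⟨⟨g, h3 g hg⟩, rfl⟩

end Rel

end MP7K
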